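import Pool.Agent.Helper24_QL.Opp3

set_option autoImplicit false
set_option linter.unusedVariables false
set_option linter.unusedSectionVars false
open Matrix

namespace QL
namespace H24

theorem iv_inj {κ : Type} {w w' : κ → ℤ} (h : iv w = iv w') : w = w' := by
  funext i
  have := congrFun h i
  simp only [iv] at this
  exact_mod_cast this

theorem im_mulVec {ι κ : Type} [Fintype κ] (M : Matrix ι κ ℤ) (w : κ → ℤ) :
    im M *ᵥ iv w = iv (M *ᵥ w) := by
  funext i
  simp [im, iv, mulVec, dotProduct]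

theorem im_mul {ι κ μ : Type} [Fintype κ] (M : Matrix ι κ ℤ) (N : Matrix κ μ ℤ) :
    im (M * N) = im M * im N := by
  ext i j
  simp [im, Matrix.mul_apply]

/-- completing a lattice: saturated integer lattice of rank `k` containing given columns -/
theorem exists_sat {ι : Type} [Fintype ι] [DecidableEq ι] {k : ℕ} (P : Matrix ι (Fin k) ℤ)
    (hP : ∀ z : Fin k → ℤ, P *ᵥ z = 0 → z = 0) :
    ∃ (M : Matrix ι (Fin k) ℤ) (M' : Matrix (Fin k) ι ℤ) (T : Matrix (Fin k) (Fin k) ℤ),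
      M' * M = 1 ∧ P = M * T := by
  classical
  set col : Fin k → (ι → ℤ) := fun j i => P i j with hcol
  have hli : LinearIndependent ℤ col := by
    rw [Fintype.linearIndependent_iff]
    intro g hg
    have h1 : P *ᵥ g = 0 := by
      funext i
      have := congrFun hg i
      simp only [hcol, Finset.sum_apply, Pi.smul_apply, smul_eq_mul, Pi.zero_apply] at this
      simp only [mulVec, dotProduct, Pi.zero_apply]
      rw [← this]
      exact Finset.sum_congr rfl fun j _ => mul_comm _ _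
    intro i
    exact congrFun (hP g h1) i
  set N : Submodule ℤ (ι → ℤ) := Submodule.span ℤ (Set.range col) with hN
  have bN0 : Module.Basis (Fin k) ℤ N := Module.Basis.span hli
  obtain ⟨n, snf⟩ := Submodule.smithNormalForm (Pi.basisFun ℤ ι) N
  have hnk : n = k := by
    have e := snf.bN.indexEquiv bN0
    simpa using Fintype.card_congr e
  subst hnk
  refine ⟨Matrix.of fun i j => snf.bM (snf.f j) i,
    Matrix.of fun j i => snf.bM.repr (Pi.single i 1) (snf.f j),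
    Matrix.of fun l j => (snf.bN.repr ⟨col j, Submodule.subset_span ⟨j, rfl⟩⟩ l) * snf.a l, ?_, ?_⟩
  · ext j j'
    rw [Matrix.mul_apply]
    simp only [Matrix.of_apply]
    have h1 : snf.bM (snf.f j') = ∑ i, (snf.bM (snf.f j') i) • (Pi.single i (1 : ℤ) : ι → ℤ) := by
      funext a
      simp [Finset.sum_apply, Pi.single_apply]
    have h2 : snf.bM.repr (snf.bM (snf.f j')) (snf.f j) =
        ∑ i, (snf.bM (snf.f j') i) * snf.bM.repr (Pi.single i (1 : ℤ)) (snf.f j) := by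
      conv_lhs => rw [h1]
      rw [map_sum, Finsupp.finsetSum_apply]
      simp only [map_smul, Finsupp.smul_apply, smul_eq_mul]
    rw [Module.Basis.repr_self] at h2
    rw [Finset.sum_congr rfl fun i _ => mul_comm _ _, ← h2, Finsupp.single_apply, Matrix.one_apply]
    simp only [EmbeddingLike.apply_eq_iff_eq, eq_comm]
  · ext i j
    rw [Matrix.mul_apply]
    simp only [Matrix.of_apply]
    have h1 : (⟨col j, Submodule.subset_span ⟨j, rfl⟩⟩ : N) =
        ∑ l, (snf.bN.repr ⟨col j, Submodule.subset_span ⟨j, rfl⟩⟩ l) • snf.bN l :=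
      (snf.bN.sum_repr _).symm
    have h2 := congrArg (fun x : N => (x : ι → ℤ) i) h1
    simp only [Submodule.coe_sum, Submodule.coe_smul, snf.snf, Finset.sum_apply, Pi.smul_apply,
      smul_eq_mul] at h2
    have h3 : P i j = col j i := rfl
    rw [h3, h2]
    refine Finset.sum_congr rfl fun l _ => ?_
    ring

/-- a matrix with a left inverse maps primitive vectors to primitive vectors -/
theorem prim_of_leftInv {ι κ : Type} [Fintype ι] [Fintype κ] [DecidableEq κ] (M : Matrix ι κ ℤ)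
    (M' : Matrix κ ι ℤ) (h : M' * M = 1) {v : κ → ℝ} (hv : v ∈ Prm κ) :
    im M *ᵥ v ∈ Prm ι := by
  obtain ⟨w, hw, hvw⟩ := hv
  have hv' : v = iv w := funext hvw
  subst hv'
  rw [im_mulVec]
  refine ⟨M *ᵥ w, ?_, fun i => rfl⟩
  have h1 : M' *ᵥ (M *ᵥ w) = w := by rw [mulVec_mulVec, h, one_mulVec]
  have h3 : ∀ j, Finset.univ.gcd (M *ᵥ w) ∣ w j := by
    intro j
    have h4 : w j = ∑ i, M' j i * (M *ᵥ w) i := by
      conv_lhs => rw [← h1]
      rfl
    rw [h4]
    exact Finset.dvd_sum fun i _ =>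
      Dvd.dvd.mul_left (Finset.gcd_dvd (f := M *ᵥ w) (Finset.mem_univ i)) _
  have h2 : Finset.univ.gcd (M *ᵥ w) ∣ 1 := by
    rw [← hw]
    exact Finset.dvd_gcd fun j _ => h3 j
  rw [← Finset.normalize_gcd]
  exact normalize_eq_one.2 (isUnit_of_dvd_one h2)

/-- clearing denominators -/
theorem clear_den {ι : Type} [Finite ι] (m : ι → ℝ) (hm : m ≠ 0) (c : ℝ)
    (h : ∀ i, ∃ q : ℚ, m i = q * c) :
    ∃ w : ι → ℤ, w ≠ 0 ∧ ∃ c' : ℝ, iv w = c' • m := by
  choose q hq using h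
  obtain ⟨b, hb⟩ := IsLocalization.exist_integer_multiples_of_finite (nonZeroDivisors ℤ) q
  choose w hw using hb
  have hb0 : (b : ℤ) ≠ 0 := nonZeroDivisors.ne_zero b.2
  have hc0 : c ≠ 0 := by
    rintro rfl
    apply hm
    funext i
    rw [hq i]; simp
  have hwe : ∀ i, (w i : ℝ) = (b : ℤ) * (q i : ℝ) := by
    intro i
    have := hw i
    simp only [algebraMap_int_eq, eq_intCast, zsmul_eq_mul] at this
    exact_mod_cast this
  refine ⟨w, ?_, ((b : ℤ) : ℝ) / c, ?_⟩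
  · rintro rfl
    apply hm
    funext i
    have h1 := hwe i
    simp only [Pi.zero_apply, Int.cast_zero] at h1
    have h2 : (q i : ℝ) = 0 := by
      rcases mul_eq_zero.1 h1.symm with h | h
      · exact absurd (by exact_mod_cast h) hb0
      · exact h
    rw [hq i, h2]; simp
  · funext i
    simp only [iv, Pi.smul_apply, smul_eq_mul]
    rw [hwe i, hq i]
    field_simp

theorem clear_den_mat {ι : Type} [Finite ι] (A : Matrix ι ι ℝ) (hA : A ≠ 0) (c : ℝ)
    (h : ∀ i j, ∃ q : ℚ, A i j = q * c) :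
    ∃ R : Matrix ι ι ℤ, R ≠ 0 ∧ ∃ c' : ℝ, im R = c' • A := by
  obtain ⟨w, hw, c', hc'⟩ := clear_den (fun p : ι × ι => A p.1 p.2)
    (by
      intro h0
      apply hA
      ext i j
      exact congrFun h0 (i, j)) c (fun p => h p.1 p.2)
  refine ⟨Matrix.of fun i j => w (i, j), ?_, c', ?_⟩
  · intro h0
    apply hw
    funext p
    exact congrFun (congrFun h0 p.1) p.2
  · ext i j
    exact congrFun hc' (i, j)

/-- a quadratic polynomial with nonzero leading coefficient is eventually nonzero -/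
theorem quad_eventually (c b d : ℝ) (hc : c ≠ 0) :
    ∀ᶠ N : ℕ in Filter.atTop, (N : ℝ) ^ 2 * c + N * b + d ≠ 0 := by
  obtain ⟨N0, hN0⟩ := exists_nat_gt ((|b| + |d|) / |c|)
  filter_upwards [Filter.eventually_ge_atTop (max N0 1)] with N hN h0
  have h1 : 1 ≤ (N : ℝ) := by exact_mod_cast le_trans (le_max_right _ _) hN
  have h2 : (|b| + |d|) / |c| < N := lt_of_lt_of_le hN0 (by exact_mod_cast le_trans (le_max_left _ _) hN)
  have hcp : 0 < |c| := abs_pos.2 hc
  rw [div_lt_iff₀ hcp] at h2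
  have h3 : (N : ℝ) ^ 2 * c = -(N * b + d) := by linarith
  have h4 : (N : ℝ) ^ 2 * |c| = |N * b + d| := by
    rw [← abs_neg (N * b + d), ← h3, abs_mul, abs_of_nonneg (by positivity : (0 : ℝ) ≤ (N : ℝ) ^ 2)]
  have h5 : |N * b + d| ≤ N * |b| + |d| := by
    refine (abs_add_le _ _).trans ?_
    rw [abs_mul, abs_of_nonneg (by linarith : (0 : ℝ) ≤ N)]
  nlinarith [abs_nonneg b, abs_nonneg d]

/-- standard integer vectors -/
theorem bf_single {ι : Type} [Fintype ι] [DecidableEq ι] (A : Matrix ι ι ℝ) (i j : ι) :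
    bf A (Pi.single i 1) (Pi.single j 1) = A i j := by
  unfold bf
  rw [single_one_dotProduct, mulVec_single_one]
  rfl

theorem iv_add {κ : Type} (w w' : κ → ℤ) : iv (w + w') = iv w + iv w' := by
  funext i; simp [iv]

theorem iv_smul {κ : Type} (a : ℤ) (w : κ → ℤ) : iv (a • w) = (a : ℝ) • iv w := by
  funext i; simp [iv]

theorem iv_nsmul {κ : Type} (a : ℕ) (w : κ → ℤ) : iv (a • w) = (a : ℝ) • iv w := by
  funext i; simp [iv]

theorem iv_single {κ : Type} [DecidableEq κ] (i : κ) : iv (Pi.single i 1) = Pi.single i 1 := by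
  funext j
  simp only [iv, Pi.single_apply]
  split_ifs <;> simp

theorem iv_zero {κ : Type} : iv (0 : κ → ℤ) = 0 := by
  funext i; simp [iv]

/-- rationality lemma: second differences off a quadric -/
theorem rational_of_quadric {ι : Type} [Fintype ι] [DecidableEq ι] (A C : Matrix ι ι ℝ)
    (hA : Aᵀ = A) (hCs : Cᵀ = C) (hC : C ≠ 0) (a0 : ℝ)
    (h : ∀ v : ι → ℤ, bf C (iv v) (iv v) ≠ 0 → ∃ q : ℚ, bf A (iv v) (iv v) = q * a0) (i j : ι) :
    ∃ q : ℚ, A i j = q * a0 := by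
  -- a good integer vector
  obtain ⟨z, hz⟩ : ∃ z : ι → ℤ, bf C (iv z) (iv z) ≠ 0 := by
    by_contra hcon
    push Not at hcon
    apply hC
    ext a b
    have ha := hcon (Pi.single a 1)
    have hb := hcon (Pi.single b 1)
    have hab := hcon (Pi.single a 1 + Pi.single b 1)
    rw [iv_add, iv_single, iv_single, bf_add_left, bf_add_right, bf_add_right] at hab
    rw [iv_single] at ha hb
    rw [ha, hb, bf_comm hCs (Pi.single b 1)] at hab
    rw [bf_single] at hab
    simp only [Matrix.zero_apply]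
    linarith
  have key : ∀ e : ι → ℤ, ∀ᶠ N : ℕ in Filter.atTop,
      bf C (iv (N • z + e)) (iv (N • z + e)) ≠ 0 := by
    intro e
    have := quad_eventually (bf C (iv z) (iv z)) (2 * bf C (iv z) (iv e)) (bf C (iv e) (iv e)) hz
    filter_upwards [this] with N hN
    intro h0
    apply hN
    rw [← h0, iv_add, iv_nsmul]
    simp only [bf_add_left, bf_add_right, bf_smul_left, bf_smul_right, bf_comm hCs (iv e) (iv z)]
    ring
  obtain ⟨N, ⟨⟨h0, h1⟩, h2⟩, h3⟩ := (((key 0).and (key (Pi.single i 1))).and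
    (key (Pi.single j 1))).and (key (Pi.single i 1 + Pi.single j 1)) |>.exists
  obtain ⟨q0, hq0⟩ := h _ h0
  obtain ⟨q1, hq1⟩ := h _ h1
  obtain ⟨q2, hq2⟩ := h _ h2
  obtain ⟨q3, hq3⟩ := h _ h3
  refine ⟨(q3 - q1 - q2 + q0) / 2, ?_⟩
  simp only [iv_add, iv_nsmul, iv_single, iv_zero, add_zero, bf_add_left, bf_add_right,
    bf_single] at hq0 hq1 hq2 hq3
  have hji : A j i = A i j := congrFun (congrFun hA i) j
  push_cast
  have e1 : 2 * A i j = (q3 - q1 - q2 + q0) * a0 := by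
    linear_combination (-1 : ℝ) * hji + hq3 - hq1 - hq2 + hq0
  linarith

/-- perturbation lemma: an irrational ratio -/
theorem exists_irr {ι : Type} [Fintype ι] [DecidableEq ι] (m : ι → ℝ) (hm0 : m ≠ 0)
    (hm : ∀ w : ι → ℤ, w ≠ 0 → ¬ ∃ c : ℝ, iv w = c • m) (u1 u2 : ι → ℤ)
    (cond : (ι → ℤ) → (ι → ℤ) → Prop)
    (hcond : ∀ w1 w2 : ι → ℤ, ∀ᶠ N : ℕ in Filter.atTop, cond (N • u1 + w1) (N • u2 + w2)) :
    ∃ v1 v2 : ι → ℤ, cond v1 v2 ∧ m ⬝ᵥ iv v2 ≠ 0 ∧ ∀ q : ℚ, m ⬝ᵥ iv v1 ≠ q * (m ⬝ᵥ iv v2) := by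
  by_contra hcon
  push Not at hcon
  -- finite set of perturbations
  set e : Option ι → (ι → ℤ) := fun o => o.elim 0 (fun i => Pi.single i 1) with he
  have hall : ∀ᶠ N : ℕ in Filter.atTop, ∀ o o' : Option ι,
      cond (N • u1 + e o) (N • u2 + e o') := by
    rw [Filter.eventually_all]
    intro o
    rw [Filter.eventually_all]
    intro o'
    exact hcond _ _
  obtain ⟨N, hN⟩ := hall.exists
  have hmi : ∀ i, m ⬝ᵥ iv (Pi.single i 1) = m i := by
    intro i; rw [iv_single, dotProduct_single, mul_one]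
  by_cases hall0 : ∀ o' : Option ι, m ⬝ᵥ iv (N • u2 + e o') = 0
  · apply hm0
    funext i
    have h1 := hall0 (some i)
    have h0 := hall0 none
    simp only [he, Option.elim_some, Option.elim_none, iv_add, dotProduct_add, iv_zero,
      dotProduct_zero, add_zero] at h1 h0
    rw [h0, hmi] at h1
    simpa using h1
  · push Not at hall0
    obtain ⟨o', ho'⟩ := hall0
    set c := m ⬝ᵥ iv (N • u2 + e o') with hc
    have hr : ∀ o : Option ι, ∃ q : ℚ, m ⬝ᵥ iv (N • u1 + e o) = q * c := by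
      intro o
      exact hcon _ _ (hN o o') ho'
    have hmq : ∀ i, ∃ q : ℚ, m i = q * c := by
      intro i
      obtain ⟨q0, hq0⟩ := hr none
      obtain ⟨q1, hq1⟩ := hr (some i)
      refine ⟨q1 - q0, ?_⟩
      simp only [he, Option.elim_some, Option.elim_none, iv_add, dotProduct_add, iv_zero,
        dotProduct_zero, add_zero] at hq0 hq1
      rw [hmi] at hq1
      push_cast
      linarith
    obtain ⟨w, hw, c', hc'⟩ := clear_den m hm0 c hmq
    exact hm w hw ⟨c', hc'⟩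

/-! ### the Gram quadric -/
section gram
variable {ι : Type} [Fintype ι] [DecidableEq ι]

theorem bf_add_mat (A B : Matrix ι ι ℝ) (x y : ι → ℝ) : bf (A + B) x y = bf A x y + bf B x y := by
  simp [bf, add_mulVec, dotProduct_add]

theorem bf_sub_mat (A B : Matrix ι ι ℝ) (x y : ι → ℝ) : bf (A - B) x y = bf A x y - bf B x y := by
  simp [bf, sub_mulVec, dotProduct_sub]

theorem bf_smul_mat (c : ℝ) (A : Matrix ι ι ℝ) (x y : ι → ℝ) : bf (c • A) x y = c * bf A x y := by
  simp [bf, smul_mulVec, dotProduct_smul]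

theorem bf_vecMulVec (a b x y : ι → ℝ) : bf (vecMulVec a b) x y = (x ⬝ᵥ a) * (b ⬝ᵥ y) := by
  unfold bf
  rw [vecMulVec_mulVec, dotProduct_smul, op_smul_eq_mul]

/-- matrix of the quadratic form `v ↦ det Gram(k1,k2,v)` -/
def gq (A : Matrix ι ι ℝ) (k1 k2 : ι → ℝ) : Matrix ι ι ℝ :=
  (bf A k1 k1 * bf A k2 k2 - bf A k1 k2 ^ 2) • A
    - bf A k2 k2 • vecMulVec (A *ᵥ k1) (A *ᵥ k1)
    + bf A k1 k2 • (vecMulVec (A *ᵥ k1) (A *ᵥ k2) + vecMulVec (A *ᵥ k2) (A *ᵥ k1))
    - bf A k1 k1 • vecMulVec (A *ᵥ k2) (A *ᵥ k2)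

theorem gq_symm {A : Matrix ι ι ℝ} (hA : Aᵀ = A) (k1 k2 : ι → ℝ) : (gq A k1 k2)ᵀ = gq A k1 k2 := by
  unfold gq
  simp only [transpose_add, transpose_sub, transpose_smul, transpose_vecMulVec, hA]
  rw [add_comm (vecMulVec (A *ᵥ k2) (A *ᵥ k1)) (vecMulVec (A *ᵥ k1) (A *ᵥ k2))]

theorem gq_apply {A : Matrix ι ι ℝ} (hA : Aᵀ = A) (k1 k2 v : ι → ℝ) :
    bf (gq A k1 k2) v v =
      (!![bf A k1 k1, bf A k1 k2, bf A k1 v; bf A k2 k1, bf A k2 k2, bf A k2 v;
        bf A v k1, bf A v k2, bf A v v] : Matrix (Fin 3) (Fin 3) ℝ).det := by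
  rw [Matrix.det_fin_three]
  simp only [gq, bf_add_mat, bf_sub_mat, bf_smul_mat, bf_vecMulVec]
  have e1 : v ⬝ᵥ A *ᵥ k1 = bf A v k1 := rfl
  have e2 : v ⬝ᵥ A *ᵥ k2 = bf A v k2 := rfl
  have e3 : (A *ᵥ k1) ⬝ᵥ v = bf A v k1 := dotProduct_comm _ _
  have e4 : (A *ᵥ k2) ⬝ᵥ v = bf A v k2 := dotProduct_comm _ _
  rw [e1, e2, e3, e4, bf_comm hA k2 k1, bf_comm hA k1 v, bf_comm hA k2 v]
  simp [Matrix.of_apply]
  ring

/-- rank: if the Gram quadric vanishes on the columns of `V`, the Gram matrix of `V` is singular -/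
theorem det_zero_of_gq {A : Matrix ι ι ℝ} (hA : Aᵀ = A) (k1 k2 : ι → ℝ)
    (hΔ : bf A k1 k1 * bf A k2 k2 - bf A k1 k2 ^ 2 ≠ 0) (V : Matrix ι (Fin 3) ℝ)
    (h : Vᵀ * gq A k1 k2 * V = 0) : (Vᵀ * A * V).det = 0 := by
  set Δ := bf A k1 k1 * bf A k2 k2 - bf A k1 k2 ^ 2 with hΔd
  set β1 : Fin 3 → ℝ := (A *ᵥ k1) ᵥ* V with hβ1
  set β2 : Fin 3 → ℝ := (A *ᵥ k2) ᵥ* V with hβ2
  have hvv : ∀ a b : ι → ℝ, Vᵀ * vecMulVec a b * V = vecMulVec (a ᵥ* V) (b ᵥ* V) := by
    intro a b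
    rw [Matrix.mul_vecMulVec, Matrix.vecMulVec_mul, mulVec_transpose]
  have h1 : Δ • (Vᵀ * A * V) = bf A k2 k2 • vecMulVec β1 β1
      - bf A k1 k2 • (vecMulVec β1 β2 + vecMulVec β2 β1) + bf A k1 k1 • vecMulVec β2 β2 := by
    unfold gq at h
    simp only [Matrix.mul_add, Matrix.mul_sub, Matrix.add_mul, Matrix.sub_mul, Matrix.mul_smul,
      Matrix.smul_mul, hvv, smul_add] at h
    simp only [smul_add]
    have h2 := eq_neg_of_add_eq_zero_left (a := Δ • (Vᵀ * A * V)) (b :=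
      - bf A k2 k2 • vecMulVec β1 β1
      + (bf A k1 k2 • vecMulVec β1 β2 + bf A k1 k2 • vecMulVec β2 β1)
      - bf A k1 k1 • vecMulVec β2 β2) (by
        rw [← h]; simp only [neg_smul]; abel)
    rw [h2]; simp only [neg_smul]; abel
  have h3 : (Δ • (Vᵀ * A * V)).det = 0 := by
    rw [h1, Matrix.det_fin_three]
    simp only [Matrix.add_apply, Matrix.sub_apply, Matrix.smul_apply, vecMulVec_apply, smul_eq_mul]
    ring
  rw [Matrix.det_smul] at h3
  rcases mul_eq_zero.1 h3 with h4 | h4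
  · exact absurd (pow_eq_zero_iff (by simp) |>.1 h4) hΔ
  · exact h4

end gram

end H24
end QL
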