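import Pool.Agent.Helper27_QL.Stmt

/-!
Normal form of an indefinite nondegenerate symmetric form on the kernel of a covector.
-/

set_option autoImplicit false
set_option linter.unusedVariables false
set_option linter.unusedSectionVars false
open Matrix

namespace QL
namespace H24

section form
variable {ι : Type} [Fintype ι]

/-- the bilinear form of a matrix -/
def bf (A : Matrix ι ι ℝ) (x y : ι → ℝ) : ℝ := x ⬝ᵥ A *ᵥ y

theorem bf_add_left (A : Matrix ι ι ℝ) (x y z : ι → ℝ) :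
    bf A (x + y) z = bf A x z + bf A y z := by
  simp [bf, add_dotProduct]

theorem bf_add_right (A : Matrix ι ι ℝ) (x y z : ι → ℝ) :
    bf A x (y + z) = bf A x y + bf A x z := by
  simp [bf, mulVec_add, dotProduct_add]

theorem bf_smul_left (A : Matrix ι ι ℝ) (c : ℝ) (x y : ι → ℝ) :
    bf A (c • x) y = c * bf A x y := by
  simp [bf, smul_dotProduct]

theorem bf_smul_right (A : Matrix ι ι ℝ) (c : ℝ) (x y : ι → ℝ) :
    bf A x (c • y) = c * bf A x y := by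
  simp [bf, mulVec_smul, dotProduct_smul]

theorem bf_neg_left (A : Matrix ι ι ℝ) (x y : ι → ℝ) :
    bf A (-x) y = - bf A x y := by
  simp [bf]

theorem bf_neg_right (A : Matrix ι ι ℝ) (x y : ι → ℝ) :
    bf A x (-y) = - bf A x y := by
  simp [bf, mulVec_neg]

theorem bf_sub_left (A : Matrix ι ι ℝ) (x y z : ι → ℝ) :
    bf A (x - y) z = bf A x z - bf A y z := by
  rw [sub_eq_add_neg, bf_add_left, bf_neg_left]; ring

theorem bf_sub_right (A : Matrix ι ι ℝ) (x y z : ι → ℝ) :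
    bf A x (y - z) = bf A x y - bf A x z := by
  rw [sub_eq_add_neg, bf_add_right, bf_neg_right]; ring

theorem bf_comm {A : Matrix ι ι ℝ} (hA : Aᵀ = A) (x y : ι → ℝ) :
    bf A x y = bf A y x := by
  unfold bf
  rw [dotProduct_mulVec, ← mulVec_transpose, hA, dotProduct_comm]

theorem bf_zero_left (A : Matrix ι ι ℝ) (y : ι → ℝ) : bf A 0 y = 0 := by simp [bf]
theorem bf_zero_right (A : Matrix ι ι ℝ) (y : ι → ℝ) : bf A y 0 = 0 := by simp [bf]

/-- an isotropic vector in the kernel of `L` -/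
theorem exists_isotropic {A : Matrix ι ι ℝ} (hA : Aᵀ = A) (L : ι → ℝ)
    (hpos : ∃ k, L ⬝ᵥ k = 0 ∧ 0 < bf A k k) (hneg : ∃ k, L ⬝ᵥ k = 0 ∧ bf A k k < 0) :
    ∃ e : ι → ℝ, e ≠ 0 ∧ L ⬝ᵥ e = 0 ∧ bf A e e = 0 := by
  obtain ⟨x, hx, hxp⟩ := hpos
  obtain ⟨y, hy, hyn⟩ := hneg
  set f : ℝ → ℝ := fun t => bf A ((1 - t) • x + t • y) ((1 - t) • x + t • y) with hf
  have hfe : ∀ t, f t = (1 - t) ^ 2 * bf A x x + 2 * t * (1 - t) * bf A x y + t ^ 2 * bf A y y := by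
    intro t
    simp only [hf, bf_add_left, bf_add_right, bf_smul_left, bf_smul_right, bf_comm hA y x]
    ring
  have hcont : Continuous f := by
    have : f = fun t => (1 - t) ^ 2 * bf A x x + 2 * t * (1 - t) * bf A x y + t ^ 2 * bf A y y :=
      funext hfe
    rw [this]
    fun_prop
  have h0 : f 0 = bf A x x := by rw [hfe]; ring
  have h1 : f 1 = bf A y y := by rw [hfe]; ring
  have hmem : (0 : ℝ) ∈ Set.Icc (f 1) (f 0) := ⟨by rw [h1]; exact hyn.le, by rw [h0]; exact hxp.le⟩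
  obtain ⟨t, ht, hft⟩ := intermediate_value_Icc' (zero_le_one) hcont.continuousOn hmem
  refine ⟨(1 - t) • x + t • y, ?_, ?_, hft⟩
  · intro h
    have h2 : (1 - t) • x = -(t • y) := eq_neg_of_add_eq_zero_left h
    have h3 : bf A ((1 - t) • x) ((1 - t) • x) = bf A (t • y) (t • y) := by
      rw [h2, bf_neg_left, bf_neg_right]; ring
    rw [bf_smul_left, bf_smul_right, bf_smul_left, bf_smul_right] at h3
    have ht0 : 0 ≤ t := ht.1
    have ht1 : 0 ≤ 1 - t := by linarith [ht.2]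
    have e1 : 0 ≤ (1 - t) * ((1 - t) * bf A x x) := by positivity
    have e2 : t * (t * bf A y y) ≤ 0 := by nlinarith [mul_nonneg ht0 ht0]
    have e3 : (1 - t) * ((1 - t) * bf A x x) = 0 := by linarith
    have e4 : t * (t * bf A y y) = 0 := by linarith
    have e5 : 1 - t = 0 := by
      rcases mul_eq_zero.1 e3 with h | h
      · exact h
      · rcases mul_eq_zero.1 h with h | h
        · exact h
        · exact absurd h hxp.ne'
    have e6 : t = 0 := by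
      rcases mul_eq_zero.1 e4 with h | h
      · exact h
      · rcases mul_eq_zero.1 h with h | h
        · exact h
        · exact absurd h hyn.ne
    linarith
  · simp [dotProduct_add, dotProduct_smul, hx, hy]

/-- hyperbolic basis: `e, g, f` in the kernel of `L` with Gram matrix `ε B3` -/
theorem exists_hyp {A : Matrix ι ι ℝ} (hA : Aᵀ = A) (L : ι → ℝ)
    (hnd : ∀ k, L ⬝ᵥ k = 0 → (∀ k', L ⬝ᵥ k' = 0 → bf A k k' = 0) → k = 0)
    (hpos : ∃ k, L ⬝ᵥ k = 0 ∧ 0 < bf A k k) (hneg : ∃ k, L ⬝ᵥ k = 0 ∧ bf A k k < 0)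
    (hdim : ∀ a b : ι → ℝ, ∃ v : ι → ℝ, v ≠ 0 ∧ L ⬝ᵥ v = 0 ∧ a ⬝ᵥ v = 0 ∧ b ⬝ᵥ v = 0) :
    ∃ ε : ℝ, (ε = 1 ∨ ε = -1) ∧ ∃ e g f : ι → ℝ, L ⬝ᵥ e = 0 ∧ L ⬝ᵥ g = 0 ∧ L ⬝ᵥ f = 0 ∧
      bf A e e = 0 ∧ bf A f f = 0 ∧ bf A e f = ε ∧ bf A g g = -ε ∧ bf A e g = 0 ∧
      bf A g f = 0 := by
  obtain ⟨e, he0, heL, hee⟩ := exists_isotropic hA L hpos hneg
  -- partner
  have hf1 : ∃ f0 : ι → ℝ, L ⬝ᵥ f0 = 0 ∧ bf A e f0 ≠ 0 := by
    by_contra hcon
    push Not at hcon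
    exact he0 (hnd e heL hcon)
  obtain ⟨f0, hf0L, hf0⟩ := hf1
  obtain ⟨f1, hf1L, hef1⟩ : ∃ f1 : ι → ℝ, L ⬝ᵥ f1 = 0 ∧ bf A e f1 = 1 :=
    ⟨(bf A e f0)⁻¹ • f0, by rw [dotProduct_smul, hf0L]; simp,
      by rw [bf_smul_right, inv_mul_cancel₀ hf0]⟩
  obtain ⟨f, hfL, hef, hff⟩ : ∃ f : ι → ℝ, L ⬝ᵥ f = 0 ∧ bf A e f = 1 ∧ bf A f f = 0 := by
    refine ⟨f1 - (bf A f1 f1 / 2) • e, ?_, ?_, ?_⟩
    · rw [dotProduct_sub, dotProduct_smul, hf1L, heL]; simp
    · rw [bf_sub_right, bf_smul_right, hef1, hee]; ring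
    · rw [bf_sub_right, bf_smul_right, bf_sub_left, bf_smul_left, bf_sub_left, bf_smul_left,
        bf_comm hA f1 e, hef1, hee]; ring
  -- complement
  have hg0 : ∃ g0 : ι → ℝ, L ⬝ᵥ g0 = 0 ∧ bf A e g0 = 0 ∧ bf A f g0 = 0 ∧ bf A g0 g0 ≠ 0 := by
    by_contra hcon
    push Not at hcon
    obtain ⟨v, hv0, hvL, hve, hvf⟩ := hdim (A *ᵥ e) (A *ᵥ f)
    have hev : bf A e v = 0 := by
      rw [bf_comm hA]; unfold bf; rw [dotProduct_comm]; exact hve
    have hfv : bf A f v = 0 := by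
      rw [bf_comm hA]; unfold bf; rw [dotProduct_comm]; exact hvf
    apply hv0
    apply hnd v hvL
    intro k hk
    -- decompose k
    set k1 : ι → ℝ := k - (bf A k f) • e - (bf A k e) • f with hk1d
    have hk1L : L ⬝ᵥ k1 = 0 := by
      rw [hk1d]; simp [dotProduct_sub, dotProduct_smul, hk, heL, hfL]
    have hk1e : bf A e k1 = 0 := by
      rw [hk1d]; simp only [bf_sub_right, bf_smul_right, hee, hef, bf_comm hA e k]; ring
    have hk1f : bf A f k1 = 0 := by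
      rw [hk1d]
      simp only [bf_sub_right, bf_smul_right, hff, bf_comm hA f e, hef, bf_comm hA f k]; ring
    have hkk : k = k1 + (bf A k f) • e + (bf A k e) • f := by rw [hk1d]; abel
    have hvk1 : bf A v k1 = 0 := by
      have h1 := hcon (v + k1) (by rw [dotProduct_add, hvL, hk1L]; simp)
        (by rw [bf_add_right, hev, hk1e]; simp) (by rw [bf_add_right, hfv, hk1f]; simp)
      have h2 := hcon v hvL hev hfv
      have h3 := hcon k1 hk1L hk1e hk1f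
      rw [bf_add_left, bf_add_right, bf_add_right, h2, h3, bf_comm hA k1 v] at h1
      linarith
    rw [hkk, bf_add_right, bf_add_right, bf_smul_right, bf_smul_right, hvk1, bf_comm hA v e, hev,
      bf_comm hA v f, hfv]
    ring
  obtain ⟨g0, hg0L, heg0, hfg0, hg00⟩ := hg0
  set s : ℝ := (Real.sqrt |bf A g0 g0|)⁻¹ with hs
  have hspos : 0 < |bf A g0 g0| := abs_pos.2 hg00
  have hs2 : s * s * |bf A g0 g0| = 1 := by
    rw [hs, ← mul_inv, Real.mul_self_sqrt hspos.le, inv_mul_cancel₀ hspos.ne']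
  set g : ι → ℝ := s • g0 with hg
  have hgL : L ⬝ᵥ g = 0 := by rw [hg, dotProduct_smul, hg0L]; simp
  have heg : bf A e g = 0 := by rw [hg, bf_smul_right, heg0]; simp
  have hgf : bf A g f = 0 := by rw [bf_comm hA, hg, bf_smul_right, hfg0]; simp
  have hggv : bf A g g = s * s * bf A g0 g0 := by
    rw [hg, bf_smul_left, bf_smul_right]; ring
  rcases lt_or_gt_of_ne hg00 with hlt | hgt
  · refine ⟨1, Or.inl rfl, e, g, f, heL, hgL, hfL, hee, hff, hef, ?_, heg, hgf⟩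
    rw [hggv]
    rw [abs_of_neg hlt] at hs2
    linarith
  · refine ⟨-1, Or.inr rfl, e, g, -f, heL, hgL, by simp [hfL], hee, ?_, ?_, ?_, heg, ?_⟩
    · rw [bf_neg_left, bf_neg_right, hff]; simp
    · rw [bf_neg_right, hef]
    · rw [hggv]
      rw [abs_of_pos hgt] at hs2
      linarith
    · rw [bf_neg_right, hgf]; simp

end form

/-- real cube root of the inverse -/
theorem exists_cube (δ : ℝ) (hδ : δ ≠ 0) : ∃ s : ℝ, s ≠ 0 ∧ s ^ 3 * δ = 1 := by
  have key : ∀ x : ℝ, 0 < x → ∃ s : ℝ, 0 < s ∧ s ^ 3 * x = 1 := by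
    intro x hx
    refine ⟨(x⁻¹) ^ ((1 : ℝ) / 3), by positivity, ?_⟩
    have h1 : ((x⁻¹) ^ ((1 : ℝ) / 3)) ^ 3 = x⁻¹ := by
      rw [← Real.rpow_natCast, ← Real.rpow_mul (by positivity)]
      norm_num
    rw [h1, inv_mul_cancel₀ hx.ne']
  rcases lt_or_gt_of_ne hδ with h | h
  · obtain ⟨s, hs, h1⟩ := key (-δ) (by linarith)
    refine ⟨-s, neg_ne_zero.2 hs.ne', ?_⟩
    have : (-s) ^ 3 * δ = s ^ 3 * (-δ) := by ring
    rw [this, h1]
  · obtain ⟨s, hs, h1⟩ := key δ h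
    exact ⟨s, hs.ne', h1⟩

end H24
end QL
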