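import Pool.Agent.Helper24_QL.NF

set_option autoImplicit false
set_option linter.unusedVariables false
set_option linter.unusedSectionVars false
open Matrix

namespace QL
namespace H24

theorem gram_apply {ι κ : Type} [Fintype ι] [Fintype κ] (A : Matrix ι ι ℝ) (M : Matrix ι κ ℝ)
    (i j : κ) : (Mᵀ * A * M) i j = bf A (fun a => M a i) (fun a => M a j) := by
  unfold bf
  rw [Matrix.mul_assoc, Matrix.mul_apply]
  simp only [Matrix.mul_apply, dotProduct, mulVec, transpose_apply]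

theorem bf_mulVec {ι κ : Type} [Fintype ι] [Fintype κ] (A : Matrix ι ι ℝ) (M : Matrix ι κ ℝ)
    (x y : κ → ℝ) : bf A (M *ᵥ x) (M *ᵥ y) = bf (Mᵀ * A * M) x y := by
  unfold bf
  rw [mulVec_mulVec, dotProduct_comm, dotProduct_mulVec, ← mulVec_transpose, mulVec_mulVec,
    dotProduct_comm, Matrix.mul_assoc]

/-- `ι = Fin 3`: two covectors have a common kernel vector -/
theorem dim3 (a b : Fin 3 → ℝ) : ∃ v : Fin 3 → ℝ, v ≠ 0 ∧ a ⬝ᵥ v = 0 ∧ b ⬝ᵥ v = 0 := by
  have hdet : (Matrix.of ![a, b, 0] : Matrix (Fin 3) (Fin 3) ℝ).det = 0 := by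
    apply Matrix.det_eq_zero_of_row_eq_zero 2
    intro j
    simp
  obtain ⟨v, hv0, hv⟩ := Matrix.exists_mulVec_eq_zero_iff.2 hdet
  refine ⟨v, hv0, ?_, ?_⟩
  · have := congrFun hv 0
    simpa [mulVec] using this
  · have := congrFun hv 1
    simpa [mulVec] using this

theorem dim4 (L a b : Fin 4 → ℝ) :
    ∃ v : Fin 4 → ℝ, v ≠ 0 ∧ L ⬝ᵥ v = 0 ∧ a ⬝ᵥ v = 0 ∧ b ⬝ᵥ v = 0 := by
  have hdet : (Matrix.of ![L, a, b, 0] : Matrix (Fin 4) (Fin 4) ℝ).det = 0 := by
    apply Matrix.det_eq_zero_of_row_eq_zero 3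
    intro j
    simp
  obtain ⟨v, hv0, hv⟩ := Matrix.exists_mulVec_eq_zero_iff.2 hdet
  refine ⟨v, hv0, ?_, ?_, ?_⟩
  · have := congrFun hv 0
    simpa [mulVec] using this
  · have := congrFun hv 1
    simpa [mulVec] using this
  · have := congrFun hv 2
    simpa [mulVec] using this

theorem opp3 (h : app1Statement) : opp3Statement := by
  intro A hA hdet hpos hneg hirr
  obtain ⟨ε, hε, e, g, f, -, -, -, hee, hff, hef, hgg, heg, hgf⟩ :=
    exists_hyp hA (0 : Fin 3 → ℝ)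
      (by
        intro k _ hk
        by_contra hk0
        apply hdet
        rw [← Matrix.exists_mulVec_eq_zero_iff]
        refine ⟨k, hk0, ?_⟩
        funext i
        have := hk (Pi.single i 1) (by simp)
        rw [bf_comm hA] at this
        unfold bf at this
        rw [single_one_dotProduct] at this
        exact this)
      (by obtain ⟨x, hx⟩ := hpos; exact ⟨x, by simp, hx⟩)
      (by obtain ⟨x, hx⟩ := hneg; exact ⟨x, by simp, hx⟩)
      (by
        intro a b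
        obtain ⟨v, hv, h1, h2⟩ := dim3 a b
        exact ⟨v, hv, by simp, h1, h2⟩)
  have hε2 : ε * ε = 1 := by rcases hε with rfl | rfl <;> norm_num
  have hε0 : ε ≠ 0 := by rcases hε with rfl | rfl <;> norm_num
  obtain ⟨M, hMd⟩ : ∃ M : Matrix (Fin 3) (Fin 3) ℝ, ∀ i j, M i j = (![e, g, f] : Fin 3 → Fin 3 → ℝ) j i :=
    ⟨Matrix.of fun i j => (![e, g, f] : Fin 3 → Fin 3 → ℝ) j i, fun i j => rfl⟩
  have hM : Mᵀ * A * M = ε • B3 := by
    ext i j
    rw [gram_apply]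
    have hcol : ∀ k : Fin 3, (fun a => M a k) = (![e, g, f] : Fin 3 → Fin 3 → ℝ) k := by
      intro k; funext a; exact hMd a k
    rw [hcol, hcol]
    fin_cases i <;> fin_cases j <;>
      simp [B3, hee, hff, hef, hgg, heg, hgf, bf_comm hA g e, bf_comm hA f e, bf_comm hA f g]
  have hMdet : M.det ≠ 0 := by
    intro h0
    have h1 : (Mᵀ * A * M).det = 0 := by
      rw [Matrix.det_mul, h0, mul_zero]
    rw [hM, Matrix.det_smul] at h1
    have h2 : B3.det = 1 := by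
      simp [B3, Matrix.det_fin_three]
    rw [h2] at h1
    simp [hε0] at h1
  have hMu : IsUnit M.det := isUnit_iff_ne_zero.2 hMdet
  obtain ⟨s, hs0, hs⟩ := exists_cube (M⁻¹).det (by
    rw [Matrix.det_nonsing_inv]
    simpa using hMdet)
  have hg1 : (s • M⁻¹).det = 1 := by
    rw [Matrix.det_smul, Fintype.card_fin, hs]
  have hg2 : (s • M⁻¹)ᵀ * B3 * (s • M⁻¹) = (s * s * ε) • A := by
    have hB : B3 = ε • (Mᵀ * A * M) := by
      rw [hM, smul_smul, hε2, one_smul]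
    have h3 : (M⁻¹)ᵀ * (Mᵀ * A * M) * M⁻¹ = A := by
      have h4 : (M⁻¹)ᵀ * Mᵀ = 1 := by
        rw [← Matrix.transpose_mul, Matrix.mul_nonsing_inv _ hMu, Matrix.transpose_one]
      calc (M⁻¹)ᵀ * (Mᵀ * A * M) * M⁻¹ = ((M⁻¹)ᵀ * Mᵀ) * A * (M * M⁻¹) := by
            simp only [Matrix.mul_assoc]
        _ = A := by rw [h4, Matrix.mul_nonsing_inv _ hMu, one_mul, mul_one]
    rw [hB, Matrix.transpose_smul, Matrix.smul_mul, Matrix.smul_mul, Matrix.mul_smul,
      Matrix.mul_smul, Matrix.smul_mul, h3, smul_smul, smul_smul]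
  have hc0 : s * s * ε ≠ 0 := mul_ne_zero (mul_ne_zero hs0 hs0) hε0
  have hD := h (s • M⁻¹) hg1 (by
    intro R hR
    rintro ⟨c, hc⟩
    rw [hg2, smul_smul] at hc
    exact hirr R hR ⟨_, hc⟩)
  have himg : {t : ℝ | ∃ v ∈ Prm (Fin 3), t = v ⬝ᵥ A *ᵥ v} =
      (fun t => (s * s * ε)⁻¹ * t) ''
        {t : ℝ | ∃ v ∈ Prm (Fin 3), t = ((s • M⁻¹) *ᵥ v) ⬝ᵥ B3 *ᵥ ((s • M⁻¹) *ᵥ v)} := by
    have key : ∀ v : Fin 3 → ℝ, ((s • M⁻¹) *ᵥ v) ⬝ᵥ B3 *ᵥ ((s • M⁻¹) *ᵥ v) =
        (s * s * ε) * (v ⬝ᵥ A *ᵥ v) := by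
      intro v
      have := bf_mulVec B3 (s • M⁻¹) v v
      unfold bf at this
      rw [this, hg2, Matrix.smul_mulVec, dotProduct_smul, smul_eq_mul]
    ext t
    constructor
    · rintro ⟨v, hv, rfl⟩
      refine ⟨_, ⟨v, hv, rfl⟩, ?_⟩
      simp only [key]
      rw [← mul_assoc, inv_mul_cancel₀ hc0, one_mul]
    · rintro ⟨_, ⟨v, hv, rfl⟩, rfl⟩
      refine ⟨v, hv, ?_⟩
      simp only [key]
      rw [← mul_assoc, inv_mul_cancel₀ hc0, one_mul]
  rw [himg]
  refine DenseRange.dense_image ?_ (by fun_prop) hD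
  exact (mul_left_surjective₀ (inv_ne_zero hc0)).denseRange

/-- normal form of the pair of condition `pair4` -/
theorem pair4 (h : app2Statement) : pair4Statement := by
  intro Q L hQ hL hnd hpos hneg h2
  obtain ⟨ε, hε, e, g, f, heL, hgL, hfL, hee, hff, hef, hgg, heg, hgf⟩ :=
    exists_hyp hQ L hnd hpos hneg (dim4 L)
  have hε2 : ε * ε = 1 := by rcases hε with rfl | rfl <;> norm_num
  have hε0 : ε ≠ 0 := by rcases hε with rfl | rfl <;> norm_num
  have hLL : L ⬝ᵥ L ≠ 0 := by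
    intro h0
    exact hL (dotProduct_self_eq_zero.1 h0)
  obtain ⟨x, hxL, hxe, hxg, hxf⟩ : ∃ x : Fin 4 → ℝ, L ⬝ᵥ x = 1 ∧ bf Q e x = 0 ∧ bf Q g x = 0 ∧
      bf Q f x = 0 := by
    obtain ⟨y, hy⟩ : ∃ y : Fin 4 → ℝ, L ⬝ᵥ y = 1 :=
      ⟨(L ⬝ᵥ L)⁻¹ • L, by rw [dotProduct_smul, smul_eq_mul, inv_mul_cancel₀ hLL]⟩
    refine ⟨y - (ε * bf Q f y) • e - (ε * bf Q e y) • f + (ε * bf Q g y) • g, ?_, ?_, ?_, ?_⟩
    · simp only [dotProduct_add, dotProduct_sub, dotProduct_smul, heL, hgL, hfL, hy]; simp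
    · simp only [bf_add_right, bf_sub_right, bf_smul_right, hee, hef, heg]
      linear_combination (-bf Q e y) * hε2
    · simp only [bf_add_right, bf_sub_right, bf_smul_right, hgg, hgf, bf_comm hQ g e, heg]
      linear_combination (-bf Q g y) * hε2
    · simp only [bf_add_right, bf_sub_right, bf_smul_right, bf_comm hQ f e, bf_comm hQ f g, hff,
        hef, hgf]
      linear_combination (-bf Q f y) * hε2
  obtain ⟨M, hMd⟩ : ∃ M : Matrix (Fin 4) (Fin 4) ℝ,
      ∀ i j, M i j = (![e, g, f, x] : Fin 4 → Fin 4 → ℝ) j i :=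
    ⟨Matrix.of fun i j => (![e, g, f, x] : Fin 4 → Fin 4 → ℝ) j i, fun i j => rfl⟩
  have hcol : ∀ k : Fin 4, (fun a => M a k) = (![e, g, f, x] : Fin 4 → Fin 4 → ℝ) k := by
    intro k; funext a; exact hMd a k
  set γ : ℝ := bf Q x x with hγ
  have hML : L ᵥ* M = L4 := by
    funext k
    have : (L ᵥ* M) k = L ⬝ᵥ (fun a => M a k) := rfl
    rw [this, hcol]
    fin_cases k <;> simp [L4, heL, hgL, hfL, hxL]
  have hM : Mᵀ * Q * M = ε • B4 + γ • vecMulVec L4 L4 := by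
    ext i j
    rw [gram_apply, hcol, hcol]
    fin_cases i <;> fin_cases j <;>
      simp [B4, L4, hee, hff, hef, hgg, heg, hgf, bf_comm hQ g e, bf_comm hQ f e, bf_comm hQ f g,
        hxe, hxg, hxf, bf_comm hQ x e, bf_comm hQ x g, bf_comm hQ x f, vecMulVec_apply, ← hγ]
  have hMdet : M.det ≠ 0 := by
    intro h0
    obtain ⟨v, hv0, hv⟩ := Matrix.exists_mulVec_eq_zero_iff.2 h0
    apply hv0
    -- v 3 = 0 from L
    have h3 : v 3 = 0 := by
      have h4 : (L ᵥ* M) ⬝ᵥ v = 0 := by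
        rw [← dotProduct_mulVec, hv, dotProduct_zero]
      rw [hML] at h4
      simpa [L4, dotProduct, Fin.sum_univ_four] using h4
    have h5 : (Mᵀ * Q * M) *ᵥ v = 0 := by
      rw [← mulVec_mulVec, hv, mulVec_zero]
    rw [hM] at h5
    have a0 := congrFun h5 0
    have a1 := congrFun h5 1
    have a2 := congrFun h5 2
    simp [B4, L4, mulVec, dotProduct, Fin.sum_univ_four, vecMulVec_apply, hε0] at a0 a1 a2
    funext k
    fin_cases k <;> simp [a0, a1, a2, h3]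
  have hMu : IsUnit M.det := isUnit_iff_ne_zero.2 hMdet
  obtain ⟨s, hs0, hs⟩ := exists_cube (M⁻¹).det (by
    rw [Matrix.det_nonsing_inv]
    simpa using hMdet)
  -- g' = diag (s,s,s,1) * M⁻¹
  obtain ⟨D, hD⟩ : ∃ D : Matrix (Fin 4) (Fin 4) ℝ, D = Matrix.diagonal ![s, s, s, 1] := ⟨_, rfl⟩
  have hDdet : D.det = s ^ 3 := by
    rw [hD, Matrix.det_diagonal]
    simp [Fin.prod_univ_four]; ring
  have hDB : Dᵀ * B4 * D = (s * s) • B4 := by
    rw [hD]
    ext i j
    rw [diagonal_transpose, Matrix.mul_diagonal, Matrix.diagonal_mul]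
    fin_cases i <;> fin_cases j <;> simp [B4]
  have hDL : L4 ᵥ* D = L4 := by
    rw [hD]
    funext k
    rw [vecMul_diagonal]
    fin_cases k <;> simp [L4]
  set G : Matrix (Fin 4) (Fin 4) ℝ := D * M⁻¹ with hG
  have hGdet : G.det = 1 := by
    rw [hG, Matrix.det_mul, hDdet, hs]
  have hinvT : (M⁻¹)ᵀ * Mᵀ = 1 := by
    rw [← Matrix.transpose_mul, Matrix.mul_nonsing_inv _ hMu, Matrix.transpose_one]
  have hLM : L4 ᵥ* M⁻¹ = L := by
    rw [← hML, vecMul_vecMul, Matrix.mul_nonsing_inv _ hMu, vecMul_one]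
  have hGL : L4 ᵥ* G = L := by
    rw [hG, ← vecMul_vecMul, hDL, hLM]
  have hBQ : (M⁻¹)ᵀ * B4 * M⁻¹ = ε • (Q - γ • vecMulVec L L) := by
    have h3 : (M⁻¹)ᵀ * (Mᵀ * Q * M) * M⁻¹ = Q := by
      calc (M⁻¹)ᵀ * (Mᵀ * Q * M) * M⁻¹ = ((M⁻¹)ᵀ * Mᵀ) * Q * (M * M⁻¹) := by
            simp only [Matrix.mul_assoc]
        _ = Q := by rw [hinvT, Matrix.mul_nonsing_inv _ hMu, one_mul, mul_one]
    have h4 : (M⁻¹)ᵀ * vecMulVec L4 L4 * M⁻¹ = vecMulVec L L := by
      rw [Matrix.mul_vecMulVec, Matrix.vecMulVec_mul, hLM, mulVec_transpose, hLM]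
    rw [hM] at h3
    rw [Matrix.mul_add, Matrix.add_mul, Matrix.mul_smul, Matrix.smul_mul, Matrix.mul_smul,
      Matrix.smul_mul, h4] at h3
    have h5 : ε • ((M⁻¹)ᵀ * B4 * M⁻¹) = Q - γ • vecMulVec L L := by
      rw [← h3]; abel
    rw [← h5, smul_smul, hε2, one_smul]
  have hGB : Gᵀ * B4 * G = (s * s * ε) • (Q - γ • vecMulVec L L) := by
    have : Gᵀ * B4 * G = (M⁻¹)ᵀ * (Dᵀ * B4 * D) * M⁻¹ := by
      rw [hG, Matrix.transpose_mul]; simp only [Matrix.mul_assoc]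
    rw [this, hDB, Matrix.mul_smul, Matrix.smul_mul, hBQ, smul_smul]
  have hc0 : s * s * ε ≠ 0 := mul_ne_zero (mul_ne_zero hs0 hs0) hε0
  have hDense := h G hGdet (by
    intro w hw
    rintro ⟨c, hc⟩
    rw [hGL] at hc
    have hc1 : c ≠ 0 := by
      rintro rfl
      apply hw
      funext i
      have := congrFun hc i
      simpa [iv] using this
    refine h2 0 1 (by simp) ⟨(c * c)⁻¹, Matrix.of fun i j => (w i : ℚ) * (w j : ℚ), ?_⟩
    ext i j
    have hi := congrFun hc i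
    have hj := congrFun hc j
    simp only [iv, Pi.smul_apply, smul_eq_mul] at hi hj
    simp only [Matrix.add_apply, Matrix.smul_apply, vecMulVec_apply, smul_eq_mul, Matrix.map_apply,
      Matrix.of_apply, Rat.cast_mul, Rat.cast_intCast, hi, hj]
    field_simp
    ring) (by
    intro R hR
    rintro ⟨a, b, hab⟩
    rw [hGL, hGB] at hab
    refine h2 (a * (s * s * ε)) (b - a * (s * s * ε) * γ) ?_ ⟨1, R.map (fun z : ℤ => (z : ℚ)), ?_⟩
    · intro h0
      rw [Prod.mk.injEq] at h0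
      apply hR
      ext i j
      have hij := congrFun (congrFun hab i) j
      simp only [im, Matrix.add_apply, Matrix.smul_apply, Matrix.sub_apply, smul_eq_mul,
        vecMulVec_apply] at hij
      have : ((R i j : ℤ) : ℝ) = 0 := by
        rw [hij]
        linear_combination (Q i j) * h0.1 + (L i * L j) * h0.2
      exact_mod_cast this
    · rw [one_smul]
      ext i j
      have hij := congrFun (congrFun hab i) j
      simp only [im, Matrix.add_apply, Matrix.smul_apply, Matrix.sub_apply, smul_eq_mul,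
        vecMulVec_apply] at hij
      simp only [Matrix.add_apply, Matrix.smul_apply, vecMulVec_apply, smul_eq_mul,
        Matrix.map_apply, Rat.cast_intCast, hij]
      ring)
  -- transport
  have key : ∀ v : Fin 4 → ℝ, val (B4, L4) (G *ᵥ v) =
      (s * s * ε * (v ⬝ᵥ Q *ᵥ v - γ * (L ⬝ᵥ v) ^ 2), L ⬝ᵥ v) := by
    intro v
    unfold val
    rw [Prod.mk.injEq]
    constructor
    · have := bf_mulVec B4 G v v
      unfold bf at this
      simp only
      rw [this, hGB, Matrix.smul_mulVec, dotProduct_smul, smul_eq_mul, Matrix.sub_mulVec,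
        dotProduct_sub, Matrix.smul_mulVec, dotProduct_smul, smul_eq_mul]
      congr 3
      rw [vecMulVec_mulVec]
      simp only [dotProduct_smul, op_smul_eq_mul, smul_eq_mul, dotProduct_comm v L]
      ring
    · simp only
      rw [dotProduct_mulVec, hGL]
  have himg : {y : ℝ × ℝ | ∃ v ∈ Prm (Fin 4), y = val (Q, L) v} =
      (fun y : ℝ × ℝ => ((s * s * ε)⁻¹ * y.1 + γ * y.2 ^ 2, y.2)) ''
        {y : ℝ × ℝ | ∃ v ∈ Prm (Fin 4), y = val (B4, L4) (G *ᵥ v)} := by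
    ext y
    constructor
    · rintro ⟨v, hv, rfl⟩
      refine ⟨_, ⟨v, hv, rfl⟩, ?_⟩
      simp only [key]
      simp only [val]
      rw [← mul_assoc, inv_mul_cancel₀ hc0, one_mul, sub_add_cancel]
    · rintro ⟨_, ⟨v, hv, rfl⟩, rfl⟩
      refine ⟨v, hv, ?_⟩
      simp only [key]
      simp only [val]
      rw [← mul_assoc, inv_mul_cancel₀ hc0, one_mul, sub_add_cancel]
  rw [himg]
  refine DenseRange.dense_image ?_ (by fun_prop) hDense
  apply Function.Surjective.denseRange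
  rintro ⟨a, b⟩
  refine ⟨((s * s * ε) * (a - γ * b ^ 2), b), ?_⟩
  simp only [Prod.mk.injEq, and_true]
  rw [← mul_assoc, inv_mul_cancel₀ hc0]
  ring

end H24
end QL
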