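import Pool.Agent.Helper24_QL.Lat

set_option autoImplicit false
set_option linter.unusedVariables false
set_option linter.unusedSectionVars false
set_option linter.unusedSimpArgs false
open Matrix

namespace QL
namespace H24

theorem int_point {κ : Type} [Fintype κ] (O : Set (κ → ℝ)) (hO : IsOpen O)
    (hcone : ∀ c : ℝ, 0 < c → ∀ x ∈ O, c • x ∈ O) (x : κ → ℝ) (hx : x ∈ O) :
    ∃ u : κ → ℤ, iv u ∈ O := by
  obtain ⟨ε, hε, hball⟩ := Metric.isOpen_iff.1 hO x hx
  obtain ⟨N, hN⟩ := exists_nat_gt (1 / ε)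
  have hNpos : (0 : ℝ) < N := lt_trans (by positivity) hN
  refine ⟨fun i => ⌊(N : ℝ) * x i⌋, ?_⟩
  have h1 : ((N : ℝ)⁻¹ • iv (fun i => ⌊(N : ℝ) * x i⌋)) ∈ O := by
    apply hball
    rw [Metric.mem_ball, dist_pi_lt_iff hε]
    intro i
    simp only [iv, Pi.smul_apply, smul_eq_mul]
    rw [Real.dist_eq, abs_lt]
    have h2 := Int.floor_le ((N : ℝ) * x i)
    have h3 := Int.lt_floor_add_one ((N : ℝ) * x i)
    have h4 : 1 < N * ε := by
      rw [div_lt_iff₀ hε] at hN; exact hN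
    have h5 : (N : ℝ)⁻¹ * (⌊(N : ℝ) * x i⌋ : ℝ) - x i =
        (N : ℝ)⁻¹ * ((⌊(N : ℝ) * x i⌋ : ℝ) - N * x i) := by
      field_simp
    have h6 : 0 < (N : ℝ)⁻¹ := inv_pos.2 hNpos
    have h7 : (N : ℝ)⁻¹ < ε := by
      rw [inv_lt_comm₀ hNpos hε, inv_eq_one_div]; exact hN
    rw [h5]
    constructor
    · nlinarith
    · nlinarith
  have h8 := hcone N hNpos _ h1
  rw [smul_smul, mul_inv_cancel₀ hNpos.ne', one_smul] at h8
  exact h8

theorem cone_eventually {κ : Type} [Fintype κ] (O : Set (κ → ℝ)) (hO : IsOpen O)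
    (hcone : ∀ c : ℝ, 0 < c → ∀ x ∈ O, c • x ∈ O) (u w : κ → ℤ) (hu : iv u ∈ O) :
    ∀ᶠ N : ℕ in Filter.atTop, iv (N • u + w) ∈ O := by
  have h1 : Filter.Tendsto (fun N : ℕ => iv u + (1 / (N : ℝ)) • iv w) Filter.atTop
      (nhds (iv u + (0 : ℝ) • iv w)) := by
    apply Filter.Tendsto.const_add
    exact Filter.Tendsto.smul_const tendsto_one_div_atTop_nhds_zero_nat _
  rw [zero_smul, add_zero] at h1
  filter_upwards [h1.eventually (hO.mem_nhds hu), Filter.eventually_gt_atTop 0] with N hN hN0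
  have hNpos : (0 : ℝ) < N := by exact_mod_cast hN0
  have h2 := hcone N hNpos _ hN
  have h3 : (N : ℝ) • (iv u + (1 / (N : ℝ)) • iv w) = iv (N • u + w) := by
    rw [smul_add, smul_smul, mul_one_div_cancel hNpos.ne', one_smul, iv_add, iv_nsmul]
  rw [h3] at h2
  exact h2

theorem continuous_bf {ι : Type} [Fintype ι] (A : Matrix ι ι ℝ) :
    Continuous fun p : (ι → ℝ) × (ι → ℝ) => bf A p.1 p.2 := by
  unfold bf
  apply Continuous.dotProduct continuous_fst
  exact Continuous.matrix_mulVec continuous_const continuous_snd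

theorem gram_symm {ι κ : Type} [Fintype ι] [Fintype κ] {A : Matrix ι ι ℝ} (hA : Aᵀ = A)
    (M : Matrix ι κ ℝ) : (Mᵀ * A * M)ᵀ = Mᵀ * A * M := by
  rw [transpose_mul, transpose_mul, transpose_transpose, hA, Matrix.mul_assoc]

/-- integrality of an integer form -/
theorem bf_im {κ : Type} [Fintype κ] (R : Matrix κ κ ℤ) (x y : κ → ℤ) :
    bf (im R) (iv x) (iv y) = ((x ⬝ᵥ R *ᵥ y : ℤ) : ℝ) := by
  unfold bf
  rw [im_mulVec]
  simp [dotProduct, iv]

/-- two primitive vectors in the kernel of an irrational covector on `Z^3` are equal up to sign -/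
theorem ker_prim (m : Fin 3 → ℝ) (z1 z2 : Fin 3 → ℤ) (hz2 : m ⬝ᵥ iv z2 ≠ 0)
    (hq : ∀ q : ℚ, m ⬝ᵥ iv z1 ≠ q * (m ⬝ᵥ iv z2)) {v v' : Fin 3 → ℝ} (hv : v ∈ Prm (Fin 3))
    (hv' : v' ∈ Prm (Fin 3)) (h0 : m ⬝ᵥ v = 0) (h0' : m ⬝ᵥ v' = 0) : v' = v ∨ v' = -v := by
  obtain ⟨w, hw, hvw⟩ := hv
  obtain ⟨w', hw', hvw'⟩ := hv'
  obtain rfl : v = iv w := funext hvw
  obtain rfl : v' = iv w' := funext hvw'
  clear hvw hvw'
  have e0 : m 0 * w 0 + m 1 * w 1 + m 2 * w 2 = 0 := by
    have := h0; simp only [dotProduct, Fin.sum_univ_three, iv] at this; exact this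
  have e0' : m 0 * w' 0 + m 1 * w' 1 + m 2 * w' 2 = 0 := by
    have := h0'; simp only [dotProduct, Fin.sum_univ_three, iv] at this; exact this
  -- cross product
  set n0 : ℤ := w 1 * w' 2 - w 2 * w' 1 with hn0
  set n1 : ℤ := w 2 * w' 0 - w 0 * w' 2 with hn1
  set n2 : ℤ := w 0 * w' 1 - w 1 * w' 0 with hn2
  have c01 : m 0 * n1 = m 1 * n0 := by
    rw [hn0, hn1]; push_cast
    linear_combination (w 2 : ℝ) * e0' - (w' 2 : ℝ) * e0
  have c12 : m 1 * n2 = m 2 * n1 := by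
    rw [hn1, hn2]; push_cast
    linear_combination (w 0 : ℝ) * e0' - (w' 0 : ℝ) * e0
  have c20 : m 2 * n0 = m 0 * n2 := by
    rw [hn0, hn2]; push_cast
    linear_combination (w 1 : ℝ) * e0' - (w' 1 : ℝ) * e0
  by_cases hn : n0 = 0 ∧ n1 = 0 ∧ n2 = 0
  · obtain ⟨a0, a1, a2⟩ := hn
    have hpar : ∀ i j, w i * w' j = w j * w' i := by
      intro i j
      fin_cases i <;> fin_cases j <;> simp <;> first | rfl | linarith
    -- |w i| = |w' i|
    have habs : ∀ i, |w i| = |w' i| := by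
      intro i
      have g1 : Finset.univ.gcd (fun j => w i * w' j) = |w i| := by
        rw [Finset.gcd_mul_left, hw', mul_one, Int.abs_eq_normalize]
      have g2 : Finset.univ.gcd (fun j => w' i * w j) = |w' i| := by
        rw [Finset.gcd_mul_left, hw, mul_one, Int.abs_eq_normalize]
      rw [← g1, ← g2]
      congr 1
      funext j
      rw [hpar i j]; ring
    obtain ⟨i, hi⟩ : ∃ i, w i ≠ 0 := by
      by_contra hcon
      push Not at hcon
      have : Finset.univ.gcd w = 0 := Finset.gcd_eq_zero_iff.2 fun i _ => hcon i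
      rw [this] at hw
      exact zero_ne_one hw
    rcases abs_eq_abs.1 (habs i) with h | h
    · left
      apply congrArg
      funext j
      have := hpar i j
      rw [← h] at this
      have h2 : w i * (w' j - w j) = 0 := by linarith
      rcases mul_eq_zero.1 h2 with h3 | h3
      · exact absurd h3 hi
      · linarith
    · right
      have : iv w' = iv (-w) := by
        apply congrArg
        funext j
        have := hpar i j
        have h1 : w' i = - w i := by linarith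
        rw [h1] at this
        have h2 : w i * (w' j + w j) = 0 := by linarith
        rcases mul_eq_zero.1 h2 with h3 | h3
        · exact absurd h3 hi
        · simp only [Pi.neg_apply]; linarith
      rw [this]
      funext j
      simp [iv]
  · exfalso
    -- m proportional to n
    have hprop : ∃ c : ℝ, m 0 = c * n0 ∧ m 1 = c * n1 ∧ m 2 = c * n2 := by
      by_cases h : n0 = 0
      · by_cases h' : n1 = 0
        · have h2 : n2 ≠ 0 := fun h2 => hn ⟨h, h', h2⟩
          have h2' : (n2 : ℝ) ≠ 0 := by exact_mod_cast h2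
          refine ⟨m 2 / n2, ?_, ?_, ?_⟩
          · field_simp; linarith
          · field_simp; linarith
          · field_simp
        · have h2' : (n1 : ℝ) ≠ 0 := by exact_mod_cast h'
          refine ⟨m 1 / n1, ?_, ?_, ?_⟩
          · field_simp; linarith
          · field_simp
          · field_simp; linarith
      · have h2' : (n0 : ℝ) ≠ 0 := by exact_mod_cast h
        refine ⟨m 0 / n0, ?_, ?_, ?_⟩
        · field_simp
        · field_simp; linarith
        · field_simp; linarith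
    obtain ⟨c, hc0, hc1, hc2⟩ := hprop
    have hval : ∀ z : Fin 3 → ℤ, m ⬝ᵥ iv z = c * ((n0 * z 0 + n1 * z 1 + n2 * z 2 : ℤ) : ℝ) := by
      intro z
      simp only [dotProduct, Fin.sum_univ_three, iv, hc0, hc1, hc2]
      push_cast; ring
    rw [hval z2] at hz2
    have hk2 : ((n0 * z2 0 + n1 * z2 1 + n2 * z2 2 : ℤ) : ℝ) ≠ 0 := right_ne_zero_of_mul hz2
    apply hq (((n0 * z1 0 + n1 * z1 1 + n2 * z1 2 : ℤ) : ℚ) /
      ((n0 * z2 0 + n1 * z2 1 + n2 * z2 2 : ℤ) : ℚ))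
    rw [hval z1, hval z2]
    rw [Rat.cast_div, Rat.cast_intCast, Rat.cast_intCast]
    field_simp

theorem oppn (h3 : opp3Statement) : oppnStatement := by
  intro ι _ _ A hA hrk hpos hneg hirr m hm0 hm
  obtain ⟨V, hV⟩ := hrk
  have hA0 : A ≠ 0 := by
    rintro rfl
    apply hV
    rw [Matrix.mul_zero, Matrix.zero_mul]
    exact Matrix.det_zero
  -- integer vectors
  have hO1 : IsOpen {x : ι → ℝ | 0 < bf A x x} :=
    isOpen_lt continuous_const ((continuous_bf A).comp (continuous_id.prodMk continuous_id))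
  have hO2 : IsOpen {x : ι → ℝ | bf A x x < 0} :=
    isOpen_lt ((continuous_bf A).comp (continuous_id.prodMk continuous_id)) continuous_const
  have hC1 : ∀ c : ℝ, 0 < c → ∀ x ∈ {x : ι → ℝ | 0 < bf A x x},
      c • x ∈ {x : ι → ℝ | 0 < bf A x x} := by
    intro c hc x hx
    simp only [Set.mem_ofPred_eq, bf_smul_left, bf_smul_right] at hx ⊢
    positivity
  have hC2 : ∀ c : ℝ, 0 < c → ∀ x ∈ {x : ι → ℝ | bf A x x < 0},
      c • x ∈ {x : ι → ℝ | bf A x x < 0} := by
    intro c hc x hx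
    simp only [Set.mem_ofPred_eq, bf_smul_left, bf_smul_right] at hx ⊢
    have : 0 < c * (c * (-bf A x x)) := by
      have : 0 < -bf A x x := by linarith
      positivity
    linarith
  obtain ⟨x1, hx1⟩ := hpos
  obtain ⟨x2, hx2⟩ := hneg
  obtain ⟨u1, hu1⟩ := int_point _ hO1 hC1 x1 hx1
  obtain ⟨u2, hu2⟩ := int_point _ hO2 hC2 x2 hx2
  obtain ⟨v1, v2, ⟨hv1, hv2⟩, hmv2, hrat⟩ := exists_irr m hm0 hm u1 u2
    (fun v1 v2 => 0 < bf A (iv v1) (iv v1) ∧ bf A (iv v2) (iv v2) < 0)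
    (fun w1 w2 => (cone_eventually _ hO1 hC1 u1 w1 hu1).and (cone_eventually _ hO2 hC2 u2 w2 hu2))
  -- the Gram quadric
  have hΔ : bf A (iv v1) (iv v1) * bf A (iv v2) (iv v2) - bf A (iv v1) (iv v2) ^ 2 < 0 := by
    have := mul_neg_of_pos_of_neg hv1 hv2
    nlinarith [sq_nonneg (bf A (iv v1) (iv v2))]
  have hC0 : gq A (iv v1) (iv v2) ≠ 0 := by
    intro h0
    apply hV
    apply det_zero_of_gq hA (iv v1) (iv v2) hΔ.ne V
    rw [h0, Matrix.mul_zero, Matrix.zero_mul]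
  -- there is a good vector with irrational restriction
  by_cases hex : ∃ (M : Matrix ι (Fin 3) ℤ) (M' : Matrix (Fin 3) ι ℤ) (z1 z2 : Fin 3 → ℤ),
      M' * M = 1 ∧ v1 = M *ᵥ z1 ∧ v2 = M *ᵥ z2 ∧ ((im M)ᵀ * A * im M).det ≠ 0 ∧
      ∀ R : Matrix (Fin 3) (Fin 3) ℤ, R ≠ 0 → ¬ ∃ c : ℝ, im R = c • ((im M)ᵀ * A * im M)
  · obtain ⟨M, M', z1, z2, hM, hz1, hz2, hdet, hirr'⟩ := hex
    have hval1 : bf ((im M)ᵀ * A * im M) (iv z1) (iv z1) = bf A (iv v1) (iv v1) := by
      rw [← bf_mulVec, im_mulVec, ← hz1]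
    have hval2 : bf ((im M)ᵀ * A * im M) (iv z2) (iv z2) = bf A (iv v2) (iv v2) := by
      rw [← bf_mulVec, im_mulVec, ← hz2]
    have hD := h3 ((im M)ᵀ * A * im M) (gram_symm hA _) hdet
      ⟨iv z1, by have := hv1; rw [← hval1] at this; exact this⟩
      ⟨iv z2, by have := hv2; rw [← hval2] at this; exact this⟩ hirr'
    set m' : Fin 3 → ℝ := m ᵥ* im M with hm'
    have hmm : ∀ x, m' ⬝ᵥ x = m ⬝ᵥ (im M *ᵥ x) := by
      intro x; rw [hm', ← dotProduct_mulVec]
    have hsub : {t : ℝ | ∃ v ∈ Prm (Fin 3), t = v ⬝ᵥ ((im M)ᵀ * A * im M) *ᵥ v} \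
        {t : ℝ | ∃ v ∈ Prm (Fin 3), m' ⬝ᵥ v = 0 ∧ t = v ⬝ᵥ ((im M)ᵀ * A * im M) *ᵥ v} ⊆
        {t : ℝ | ∃ v ∈ Prm ι, m ⬝ᵥ v ≠ 0 ∧ t = v ⬝ᵥ A *ᵥ v} := by
      rintro t ⟨⟨v, hv, rfl⟩, hnot⟩
      refine ⟨im M *ᵥ v, prim_of_leftInv M M' hM hv, ?_, ?_⟩
      · rw [← hmm]
        intro h0
        exact hnot ⟨v, hv, h0, rfl⟩
      · exact (bf_mulVec A (im M) v v).symm
    have hfin : {t : ℝ | ∃ v ∈ Prm (Fin 3), m' ⬝ᵥ v = 0 ∧
        t = v ⬝ᵥ ((im M)ᵀ * A * im M) *ᵥ v}.Finite := by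
      apply Set.Subsingleton.finite
      rintro t ⟨v, hv, h0, rfl⟩ t' ⟨v', hv', h0', rfl⟩
      have e2 : m' ⬝ᵥ iv z2 = m ⬝ᵥ iv v2 := by rw [hmm, im_mulVec, ← hz2]
      have e1 : m' ⬝ᵥ iv z1 = m ⬝ᵥ iv v1 := by rw [hmm, im_mulVec, ← hz1]
      rcases ker_prim m' z1 z2 (by rw [e2]; exact hmv2) (by rw [e1, e2]; exact hrat) hv hv' h0 h0'
        with rfl | rfl
      · rfl
      · rw [mulVec_neg, neg_dotProduct, dotProduct_neg, neg_neg]
    exact (hD.sdiff_finite hfin).mono hsub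
  · exfalso
    push Not at hex
    -- rationality
    have hratl : ∀ v : ι → ℤ, bf (gq A (iv v1) (iv v2)) (iv v) (iv v) ≠ 0 →
        ∃ q : ℚ, bf A (iv v) (iv v) = q * bf A (iv v1) (iv v1) := by
      intro v hv
      rw [gq_apply hA] at hv
      set P : Matrix ι (Fin 3) ℤ := Matrix.of fun i j => (![v1, v2, v] : Fin 3 → ι → ℤ) j i with hP
      have hcol : ∀ k : Fin 3, (fun a => im P a k) = iv ((![v1, v2, v] : Fin 3 → ι → ℤ) k) := by
        intro k; funext a; rfl
      have hgram : (im P)ᵀ * A * im P =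
          !![bf A (iv v1) (iv v1), bf A (iv v1) (iv v2), bf A (iv v1) (iv v);
            bf A (iv v2) (iv v1), bf A (iv v2) (iv v2), bf A (iv v2) (iv v);
            bf A (iv v) (iv v1), bf A (iv v) (iv v2), bf A (iv v) (iv v)] := by
        ext i j
        rw [gram_apply, hcol, hcol]
        fin_cases i <;> fin_cases j <;> rfl
      rw [← hgram] at hv
      have hinj : ∀ z : Fin 3 → ℤ, P *ᵥ z = 0 → z = 0 := by
        intro z hz
        have h1 : im P *ᵥ iv z = 0 := by rw [im_mulVec, hz, iv_zero]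
        have h2 : ((im P)ᵀ * A * im P) *ᵥ iv z = 0 := by
          rw [← mulVec_mulVec, h1, mulVec_zero]
        by_contra hz0
        apply hv
        rw [← Matrix.exists_mulVec_eq_zero_iff]
        refine ⟨iv z, ?_, h2⟩
        intro h0
        exact hz0 (iv_inj (h0.trans iv_zero.symm))
      obtain ⟨M, M', T, hM, hPM⟩ := exists_sat P hinj
      have hTcol : ∀ k : Fin 3, (![v1, v2, v] : Fin 3 → ι → ℤ) k = M *ᵥ (fun a => T a k) := by
        intro k
        funext a
        have : P a k = (M * T) a k := by rw [← hPM]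
        rw [Matrix.mul_apply] at this
        exact this
      have hdet : ((im M)ᵀ * A * im M).det ≠ 0 := by
        intro h0
        apply hv
        have : (im P)ᵀ * A * im P = (im T)ᵀ * ((im M)ᵀ * A * im M) * im T := by
          rw [hPM, im_mul, transpose_mul]; simp only [Matrix.mul_assoc]
        rw [this, det_mul, det_mul, h0]; simp
      obtain ⟨R, hR0, c, hc⟩ := hex M M' (fun a => T a 0) (fun a => T a 1) hM (hTcol 0) (hTcol 1)
        hdet
      have hc0 : c ≠ 0 := by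
        rintro rfl
        apply hR0
        ext i j
        have := congrFun (congrFun hc i) j
        simpa [im] using this
      have hval : ∀ k : Fin 3, ∃ r : ℤ, c * bf A (iv ((![v1, v2, v] : Fin 3 → ι → ℤ) k))
          (iv ((![v1, v2, v] : Fin 3 → ι → ℤ) k)) = r := by
        intro k
        refine ⟨_, Eq.trans ?_ (bf_im R (fun a => T a k) (fun a => T a k))⟩
        rw [hc, bf_smul_mat, ← bf_mulVec, im_mulVec, ← hTcol k]
      obtain ⟨r1, hr1⟩ := hval 0
      obtain ⟨r3, hr3⟩ := hval 2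
      have hr1' : c * bf A (iv v1) (iv v1) = r1 := hr1
      have hr3' : c * bf A (iv v) (iv v) = r3 := hr3
      have hr10 : (r1 : ℝ) ≠ 0 := by
        rw [← hr1']; exact mul_ne_zero hc0 hv1.ne'
      refine ⟨(r3 : ℚ) / r1, ?_⟩
      rw [Rat.cast_div, Rat.cast_intCast, Rat.cast_intCast, ← hr1', ← hr3']
      have := hv1.ne'
      field_simp
    obtain ⟨R, hR, c', hc'⟩ := clear_den_mat A hA0 _ (rational_of_quadric A _ hA
      (gq_symm hA _ _) hC0 _ hratl)
    exact hirr R hR ⟨c', hc'⟩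

end H24
end QL
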