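import Pool.Agent.Helper24_QL.Oppn

set_option autoImplicit false
set_option linter.unusedVariables false
set_option linter.unusedSectionVars false
set_option linter.unusedSimpArgs false
open Matrix

namespace QL
namespace H24

theorem exists_int_quadric {ι : Type} [Fintype ι] [DecidableEq ι] (C : Matrix ι ι ℝ)
    (hCs : Cᵀ = C) (hC : C ≠ 0) : ∃ z : ι → ℤ, bf C (iv z) (iv z) ≠ 0 := by
  by_contra hcon
  push Not at hcon
  apply hC
  ext a b
  have ha := hcon (Pi.single a 1)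
  have hb := hcon (Pi.single b 1)
  have hab := hcon (Pi.single a 1 + Pi.single b 1)
  rw [iv_add, iv_single, iv_single, bf_add_left, bf_add_right, bf_add_right] at hab
  rw [iv_single] at ha hb
  rw [ha, hb, bf_comm hCs (Pi.single b 1)] at hab
  rw [bf_single] at hab
  simp only [Matrix.zero_apply]
  linarith

/-- rational forms take rational values on integer vectors -/
theorem bf_rat {κ : Type} [Fintype κ] (B : Matrix κ κ ℚ) (x y : κ → ℤ) :
    ∃ q : ℚ, bf (B.map (fun q : ℚ => (q : ℝ))) (iv x) (iv y) = q := by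
  refine ⟨∑ i, (x i : ℚ) * ∑ j, B i j * (y j : ℚ), ?_⟩
  simp [bf, dotProduct, mulVec, iv]

theorem nondeg_of_gram {ι : Type} [Fintype ι] {Q : Matrix ι ι ℝ} (hQ : Qᵀ = Q) (L : ι → ℝ)
    (M : Matrix ι (Fin 4) ℝ) (N : Matrix (Fin 4) (Fin 4) ℝ) (p0 k1 k2 k3 : ι → ℝ)
    (hp0 : L ⬝ᵥ p0 ≠ 0) (h1 : L ⬝ᵥ k1 = 0) (h2 : L ⬝ᵥ k2 = 0) (h3 : L ⬝ᵥ k3 = 0)
    (hMN : ∀ y : Fin 4 → ℝ, (M * N) *ᵥ y = y 0 • p0 + y 1 • k1 + y 2 • k2 + y 3 • k3)
    (hG : (!![bf Q k1 k1, bf Q k1 k2, bf Q k1 k3; bf Q k2 k1, bf Q k2 k2, bf Q k2 k3;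
        bf Q k3 k1, bf Q k3 k2, bf Q k3 k3] : Matrix (Fin 3) (Fin 3) ℝ).det ≠ 0) :
    N.det ≠ 0 ∧ ∀ k, (L ᵥ* M) ⬝ᵥ k = 0 → (∀ k', (L ᵥ* M) ⬝ᵥ k' = 0 →
      k ⬝ᵥ (Mᵀ * Q * M) *ᵥ k' = 0) → k = 0 := by
  have key : ∀ y : Fin 4 → ℝ, L ⬝ᵥ ((M * N) *ᵥ y) = 0 → bf Q ((M * N) *ᵥ y) k1 = 0 →
      bf Q ((M * N) *ᵥ y) k2 = 0 → bf Q ((M * N) *ᵥ y) k3 = 0 → y = 0 := by
    intro y hy0 hy1 hy2 hy3
    rw [hMN] at hy0 hy1 hy2 hy3
    have y0 : y 0 = 0 := by
      simp only [dotProduct_add, dotProduct_smul, h1, h2, h3, smul_eq_mul, mul_zero, add_zero] at hy0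
      rcases mul_eq_zero.1 hy0 with h | h
      · exact h
      · exact absurd h hp0
    rw [y0, zero_smul, zero_add] at hy1 hy2 hy3
    have hz : (![y 1, y 2, y 3] : Fin 3 → ℝ) = 0 := by
      by_contra hne
      apply hG
      rw [← Matrix.exists_mulVec_eq_zero_iff]
      refine ⟨_, hne, ?_⟩
      simp only [bf_add_left, bf_smul_left] at hy1 hy2 hy3
      funext i
      fin_cases i
      · simp [mulVec, dotProduct, Fin.sum_univ_three]
        rw [bf_comm hQ k1 k2, bf_comm hQ k1 k3]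
        linarith
      · simp [mulVec, dotProduct, Fin.sum_univ_three]
        rw [bf_comm hQ k2 k1, bf_comm hQ k2 k3]
        linarith
      · simp [mulVec, dotProduct, Fin.sum_univ_three]
        rw [bf_comm hQ k3 k1, bf_comm hQ k3 k2]
        linarith
    have z0 := congrFun hz 0
    have z1 := congrFun hz 1
    have z2 := congrFun hz 2
    simp at z0 z1 z2
    funext i
    fin_cases i
    · exact y0
    · exact z0
    · exact z1
    · exact z2
  have hN : N.det ≠ 0 := by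
    intro h0
    obtain ⟨y, hy, hy0⟩ := Matrix.exists_mulVec_eq_zero_iff.2 h0
    apply hy
    have : (M * N) *ᵥ y = 0 := by rw [← mulVec_mulVec, hy0, mulVec_zero]
    apply key y <;> rw [this]
    · simp
    · exact bf_zero_left _ _
    · exact bf_zero_left _ _
    · exact bf_zero_left _ _
  refine ⟨hN, ?_⟩
  intro k hk hk'
  have hNu : IsUnit N.det := isUnit_iff_ne_zero.2 hN
  have hky : N *ᵥ (N⁻¹ *ᵥ k) = k := by
    rw [mulVec_mulVec, Matrix.mul_nonsing_inv _ hNu, one_mulVec]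
  have hMk : (M * N) *ᵥ (N⁻¹ *ᵥ k) = M *ᵥ k := by rw [← mulVec_mulVec, hky]
  have hyz : N⁻¹ *ᵥ k = 0 := by
    have hk2 : ∀ y : Fin 4 → ℝ, y 0 = 0 → bf Q (M *ᵥ k) ((M * N) *ᵥ y) = 0 := by
      intro y hy
      have h5 : (L ᵥ* M) ⬝ᵥ (N *ᵥ y) = 0 := by
        rw [← dotProduct_mulVec, mulVec_mulVec, hMN, hy]
        simp [dotProduct_add, dotProduct_smul, h1, h2, h3]
      have := hk' _ h5
      rw [← mulVec_mulVec, bf_mulVec]
      exact this
    apply key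
    · rw [hMk, dotProduct_mulVec]; exact hk
    · rw [hMk]
      have := hk2 ![0, 1, 0, 0] rfl
      rw [hMN] at this
      simpa using this
    · rw [hMk]
      have := hk2 ![0, 0, 1, 0] rfl
      rw [hMN] at this
      simpa using this
    · rw [hMk]
      have := hk2 ![0, 0, 0, 1] rfl
      rw [hMN] at this
      simpa using this
  rw [← hky, hyz, mulVec_zero]

/-- uniqueness of the parameter `β` -/
theorem uniq_beta (hpen : pencilStatement) (G : Matrix (Fin 3) (Fin 3) ℝ) (l : Fin 3 → ℝ)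
    (hl : l ≠ 0)
    (hrk : ∀ a b : ℝ, a ≠ 0 → ¬ ∃ v v' : Fin 3 → ℝ, a • G + b • vecMulVec l l = vecMulVec v v')
    (hirr : ∀ w : Fin 3 → ℤ, w ≠ 0 → ¬ ∃ c : ℝ, iv w = c • l) (β β' c c' : ℝ)
    (h : ∀ i j, ∃ q : ℚ, G i j + β * (l i * l j) = q * c)
    (h' : ∀ i j, ∃ q : ℚ, G i j + β' * (l i * l j) = q * c') : β = β' := by
  by_contra hne
  have hnz : ∀ b : ℝ, G + b • vecMulVec l l ≠ 0 := by
    intro b h0
    apply hrk 1 b one_ne_zero
    exact ⟨0, 0, by rw [one_smul, h0]; ext i j; simp [vecMulVec_apply]⟩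
  obtain ⟨R, hR, d, hd⟩ := clear_den_mat (G + β • vecMulVec l l) (hnz β) c (by
    intro i j
    obtain ⟨q, hq⟩ := h i j
    exact ⟨q, by simp only [Matrix.add_apply, Matrix.smul_apply, vecMulVec_apply, smul_eq_mul, hq]⟩)
  obtain ⟨R', hR', d', hd'⟩ := clear_den_mat (G + β' • vecMulVec l l) (hnz β') c' (by
    intro i j
    obtain ⟨q, hq⟩ := h' i j
    exact ⟨q, by simp only [Matrix.add_apply, Matrix.smul_apply, vecMulVec_apply, smul_eq_mul, hq]⟩)
  have hd0 : d ≠ 0 := by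
    rintro rfl
    apply hR
    ext i j
    have := congrFun (congrFun hd i) j
    simpa [im] using this
  have hd0' : d' ≠ 0 := by
    rintro rfl
    apply hR'
    ext i j
    have := congrFun (congrFun hd' i) j
    simpa [im] using this
  obtain ⟨w, hw, cc, hcc⟩ := hpen G l hl hrk R R'
    ⟨d, d * β, by rw [hd, smul_add, smul_smul]⟩
    ⟨d', d' * β', by rw [hd', smul_add, smul_smul]⟩
    (by
      intro a b hab
      have hab' : (a : ℝ) • im R + (b : ℝ) • im R' = 0 := by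
        ext i j
        have := congrFun (congrFun hab i) j
        simp only [Matrix.add_apply, Matrix.smul_apply, smul_eq_mul, Matrix.zero_apply] at this
        simp only [im, Matrix.add_apply, Matrix.smul_apply, smul_eq_mul, Matrix.zero_apply]
        exact_mod_cast this
      rw [hd, hd'] at hab'
      have e1 : (a * d + b * d' : ℝ) • G + (a * d * β + b * d' * β' : ℝ) • vecMulVec l l = 0 := by
        rw [← hab']
        simp only [smul_add, smul_smul, add_smul, mul_assoc]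
        abel
      have s1 : (a * d + b * d' : ℝ) = 0 := by
        by_contra hs
        apply hrk _ _ hs
        exact ⟨0, 0, by rw [e1]; ext i j; simp [vecMulVec_apply]⟩
      rw [s1, zero_smul, zero_add] at e1
      have s2 : (a * d * β + b * d' * β' : ℝ) = 0 := by
        obtain ⟨i, hi⟩ := Function.ne_iff.1 hl
        have := congrFun (congrFun e1 i) i
        simp only [Matrix.smul_apply, vecMulVec_apply, smul_eq_mul, Matrix.zero_apply] at this
        rcases mul_eq_zero.1 this with h | h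
        · exact h
        · exact absurd (mul_self_eq_zero.1 h) hi
      have s3 : (a * d : ℝ) * (β - β') = 0 := by linear_combination s2 - β' * s1
      have s4 : (a * d : ℝ) = 0 := by
        rcases mul_eq_zero.1 s3 with h | h
        · exact h
        · exact absurd (sub_eq_zero.1 h) hne
      have s5 : (b * d' : ℝ) = 0 := by linarith
      constructor
      · rcases mul_eq_zero.1 s4 with h | h
        · exact_mod_cast h
        · exact absurd h hd0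
      · rcases mul_eq_zero.1 s5 with h | h
        · exact_mod_cast h
        · exact absurd h hd0')
  exact hirr w hw ⟨cc, hcc⟩

/-- the four columns -/
theorem reduce4 (hpen : pencilStatement) : reduce4Statement := by
  intro n hn Q L hQ hL hrk hpos hneg h2
  obtain ⟨V, hLV, hV⟩ := hrk
  obtain ⟨kp, hkpL, hkp⟩ := hpos
  obtain ⟨km, hkmL, hkm⟩ := hneg
  have hirrL : ∀ w : Fin n → ℤ, w ≠ 0 → ¬ ∃ c : ℝ, iv w = c • L := by
    intro w hw
    rintro ⟨c, hc⟩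
    have hc1 : c ≠ 0 := by
      rintro rfl
      apply hw
      funext i
      have := congrFun hc i
      simpa [iv] using this
    refine h2 0 1 (by simp) ⟨(c * c)⁻¹, Matrix.of fun i j => (w i : ℚ) * (w j : ℚ), ?_⟩
    ext i j
    have hi := congrFun hc i
    have hj := congrFun hc j
    simp only [iv, Pi.smul_apply, smul_eq_mul] at hi hj
    simp only [Matrix.add_apply, Matrix.smul_apply, vecMulVec_apply, smul_eq_mul, Matrix.map_apply,
      Matrix.of_apply, Rat.cast_mul, Rat.cast_intCast, hi, hj]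
    field_simp
    ring
  -- the open cone
  let pr : Fin 3 → ((Fin 3 × Fin n) → ℝ) → (Fin n → ℝ) := fun j x i => x (j, i)
  let kk : (Fin n → ℝ) → (Fin n → ℝ) → (Fin n → ℝ) := fun a b => (L ⬝ᵥ a) • b - (L ⬝ᵥ b) • a
  have hkkL : ∀ a b, L ⬝ᵥ kk a b = 0 := by
    intro a b
    simp only [kk, dotProduct_sub, dotProduct_smul, smul_eq_mul]; ring
  have hkks : ∀ (c : ℝ) a b, kk (c • a) (c • b) = (c * c) • kk a b := by
    intro c a b
    simp only [kk, dotProduct_smul, smul_eq_mul, smul_sub, smul_smul]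
    congr 1
    · congr 1; ring
    · congr 1; ring
  have hprc : ∀ j, Continuous (pr j) := by
    intro j
    exact continuous_pi fun i => continuous_apply (j, i)
  have hkkc : ∀ j j', Continuous fun x : (Fin 3 × Fin n) → ℝ => kk (pr j x) (pr j' x) := by
    intro j j'
    have c1 : ∀ j, Continuous fun x : (Fin 3 × Fin n) → ℝ => L ⬝ᵥ pr j x :=
      fun j => Continuous.dotProduct continuous_const (hprc j)
    exact ((c1 j).smul (hprc j')).sub ((c1 j').smul (hprc j))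
  let O : Set ((Fin 3 × Fin n) → ℝ) := {x |
    0 < bf Q (kk (pr 0 x) (pr 1 x)) (kk (pr 0 x) (pr 1 x)) ∧
    bf Q (kk (pr 0 x) (pr 2 x)) (kk (pr 0 x) (pr 2 x)) < 0}
  have hO : IsOpen O := by
    apply IsOpen.inter
    · exact isOpen_lt continuous_const
        ((continuous_bf Q).comp ((hkkc 0 1).prodMk (hkkc 0 1)))
    · exact isOpen_lt ((continuous_bf Q).comp ((hkkc 0 2).prodMk (hkkc 0 2))) continuous_const
  have hcone : ∀ c : ℝ, 0 < c → ∀ x ∈ O, c • x ∈ O := by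
    intro c hc x hx
    have hpr : ∀ j, pr j (c • x) = c • pr j x := fun j => rfl
    obtain ⟨ha, hb⟩ := hx
    constructor
    · simp only [hpr, hkks, bf_smul_left, bf_smul_right]
      positivity
    · simp only [hpr, hkks, bf_smul_left, bf_smul_right]
      have hb' : 0 < -bf Q (kk (pr 0 x) (pr 2 x)) (kk (pr 0 x) (pr 2 x)) := by linarith
      have : 0 < c * c * (c * c * (-bf Q (kk (pr 0 x) (pr 2 x)) (kk (pr 0 x) (pr 2 x)))) := by
        positivity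
      linarith
  have hLL : L ⬝ᵥ L ≠ 0 := by
    intro h0
    exact hL (dotProduct_self_eq_zero.1 h0)
  obtain ⟨u, hu⟩ := int_point O hO hcone
    (fun p => (![L, kp, km] : Fin 3 → Fin n → ℝ) p.1 p.2) (by
      have p0 : pr 0 (fun p => (![L, kp, km] : Fin 3 → Fin n → ℝ) p.1 p.2) = L := rfl
      have p1 : pr 1 (fun p => (![L, kp, km] : Fin 3 → Fin n → ℝ) p.1 p.2) = kp := rfl
      have p2 : pr 2 (fun p => (![L, kp, km] : Fin 3 → Fin n → ℝ) p.1 p.2) = km := rfl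
      have q1 : kk L kp = (L ⬝ᵥ L) • kp := by simp only [kk, hkpL, zero_smul, sub_zero]
      have q2 : kk L km = (L ⬝ᵥ L) • km := by simp only [kk, hkmL, zero_smul, sub_zero]
      have hsq : 0 < (L ⬝ᵥ L) * (L ⬝ᵥ L) := mul_self_pos.2 hLL
      constructor
      · rw [p0, p1, q1, bf_smul_left, bf_smul_right, ← mul_assoc]
        exact mul_pos hsq hkp
      · rw [p0, p2, q2, bf_smul_left, bf_smul_right, ← mul_assoc]
        exact mul_neg_of_pos_of_neg hsq hkm)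
  obtain ⟨v1, v3, ⟨v2, hk1, hk2⟩, hLv3, hrat⟩ := exists_irr L hL hirrL
    (fun i => u (0, i)) (fun i => u (2, i))
    (fun v1 v3 => ∃ v2 : Fin n → ℤ, 0 < bf Q (kk (iv v1) (iv v2)) (kk (iv v1) (iv v2)) ∧
      bf Q (kk (iv v1) (iv v3)) (kk (iv v1) (iv v3)) < 0)
    (by
      intro w1 w3
      have := cone_eventually O hO hcone u
        (fun p => (![w1, 0, w3] : Fin 3 → Fin n → ℤ) p.1 p.2) hu
      filter_upwards [this] with N hN
      refine ⟨fun i => (N • u + (fun p : Fin 3 × Fin n =>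
        (![w1, 0, w3] : Fin 3 → Fin n → ℤ) p.1 p.2)) (1, i), ?_⟩
      exact hN)
  have hLv1 : L ⬝ᵥ iv v1 ≠ 0 := by
    have := hrat 0
    simpa using this
  set k1 : Fin n → ℝ := kk (iv v1) (iv v2) with hk1d
  set k2 : Fin n → ℝ := kk (iv v1) (iv v3) with hk2d
  have hk1L : L ⬝ᵥ k1 = 0 := hkkL _ _
  have hk2L : L ⬝ᵥ k2 = 0 := hkkL _ _
  have hΔ : bf Q k1 k1 * bf Q k2 k2 - bf Q k1 k2 ^ 2 < 0 := by
    have := mul_neg_of_pos_of_neg hk1 hk2
    nlinarith [sq_nonneg (bf Q k1 k2)]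
  -- the quadric
  let S : Matrix (Fin n) (Fin n) ℝ := (L ⬝ᵥ iv v1) • 1 - vecMulVec (iv v1) L
  have hS : ∀ x, S *ᵥ x = kk (iv v1) x := by
    intro x
    simp only [S, kk, sub_mulVec, smul_mulVec, one_mulVec, vecMulVec_mulVec, op_smul_eq_smul]
  let C : Matrix (Fin n) (Fin n) ℝ := Sᵀ * gq Q k1 k2 * S
  have hCs : Cᵀ = C := gram_symm (gq_symm hQ _ _) S
  have hCv : ∀ v, bf C v v = bf (gq Q k1 k2) (kk (iv v1) v) (kk (iv v1) v) := by
    intro v
    rw [← hS, bf_mulVec]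
  have hSV : S * V = (L ⬝ᵥ iv v1) • V := by
    simp only [S, Matrix.sub_mul, Matrix.smul_mul, one_mul, Matrix.vecMulVec_mul, hLV]
    have : vecMulVec (iv v1) (0 : Fin 3 → ℝ) = 0 := by ext i j; simp [vecMulVec_apply]
    rw [this, sub_zero, Matrix.one_mul]
  have hC0 : C ≠ 0 := by
    intro h0
    apply hV
    apply det_zero_of_gq hQ k1 k2 hΔ.ne V
    have h1 : Vᵀ * C * V = (L ⬝ᵥ iv v1) • ((L ⬝ᵥ iv v1) • (Vᵀ * gq Q k1 k2 * V)) := by
      have : Vᵀ * C * V = (S * V)ᵀ * gq Q k1 k2 * (S * V) := by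
        simp only [C, transpose_mul, Matrix.mul_assoc]
      rw [this, hSV, transpose_smul, Matrix.smul_mul, Matrix.smul_mul, Matrix.mul_smul]
    rw [h0, Matrix.mul_zero, Matrix.zero_mul] at h1
    have h3 := h1.symm
    rcases smul_eq_zero.1 h3 with h | h
    · exact absurd h hLv1
    · rcases smul_eq_zero.1 h with h | h
      · exact absurd h hLv1
      · exact h
  by_contra hex
  -- reduction of the failure of condition 2
  have hred : ∀ v : Fin n → ℤ, bf C (iv v) (iv v) ≠ 0 → ∃ α β c : ℝ, (α, β) ≠ (0, 0) ∧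
      ∀ i j : Fin 4, ∃ q : ℚ,
        α * bf Q (iv ((![v1, v2, v3, v] : Fin 4 → Fin n → ℤ) i))
          (iv ((![v1, v2, v3, v] : Fin 4 → Fin n → ℤ) j)) +
        β * ((L ⬝ᵥ iv ((![v1, v2, v3, v] : Fin 4 → Fin n → ℤ) i)) *
          (L ⬝ᵥ iv ((![v1, v2, v3, v] : Fin 4 → Fin n → ℤ) j))) = q * c := by
    intro v hv
    rw [hCv, gq_apply hQ] at hv
    set k3 : Fin n → ℝ := kk (iv v1) (iv v) with hk3d
    have hk3L : L ⬝ᵥ k3 = 0 := hkkL _ _
    set P : Matrix (Fin n) (Fin 4) ℤ :=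
      Matrix.of fun i j => (![v1, v2, v3, v] : Fin 4 → Fin n → ℤ) j i with hP
    have hPmul : ∀ y : Fin 4 → ℝ, im P *ᵥ y = y 0 • iv v1 + y 1 • iv v2 + y 2 • iv v3 + y 3 • iv v := by
      intro y
      funext i
      simp only [mulVec, dotProduct, Fin.sum_univ_four, Pi.add_apply, Pi.smul_apply, smul_eq_mul]
      simp only [im, hP, Matrix.of_apply, iv]
      simp
      ring
    obtain ⟨S4, hS4⟩ : ∃ S4 : Matrix (Fin 4) (Fin 4) ℝ, S4 =
        !![1, -(L ⬝ᵥ iv v2), -(L ⬝ᵥ iv v3), -(L ⬝ᵥ iv v);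
          0, L ⬝ᵥ iv v1, 0, 0; 0, 0, L ⬝ᵥ iv v1, 0; 0, 0, 0, L ⬝ᵥ iv v1] := ⟨_, rfl⟩
    have hPS : ∀ y : Fin 4 → ℝ, (im P * S4) *ᵥ y =
        y 0 • iv v1 + y 1 • k1 + y 2 • k2 + y 3 • k3 := by
      intro y
      rw [← mulVec_mulVec, hPmul]
      have s0 : (S4 *ᵥ y) 0 = y 0 - (L ⬝ᵥ iv v2) * y 1 - (L ⬝ᵥ iv v3) * y 2 - (L ⬝ᵥ iv v) * y 3 := by
        rw [hS4]; simp [mulVec, dotProduct, Fin.sum_univ_four]; ring
      have s1 : (S4 *ᵥ y) 1 = (L ⬝ᵥ iv v1) * y 1 := by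
        rw [hS4]; simp [mulVec, dotProduct, Fin.sum_univ_four]
      have s2 : (S4 *ᵥ y) 2 = (L ⬝ᵥ iv v1) * y 2 := by
        rw [hS4]; simp [mulVec, dotProduct, Fin.sum_univ_four]
      have s3 : (S4 *ᵥ y) 3 = (L ⬝ᵥ iv v1) * y 3 := by
        rw [hS4]; simp [mulVec, dotProduct, Fin.sum_univ_four]
      rw [s0, s1, s2, s3, hk1d, hk2d, hk3d]
      simp only [kk]
      funext i
      simp only [Pi.add_apply, Pi.sub_apply, Pi.smul_apply, smul_eq_mul]
      ring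
    have hinj : ∀ z : Fin 4 → ℤ, P *ᵥ z = 0 → z = 0 := by
      intro z hz
      have h1 : im P *ᵥ iv z = 0 := by rw [im_mulVec, hz, iv_zero]
      apply iv_inj
      rw [iv_zero]
      refine (nondeg_of_gram hQ L (im P) S4 (iv v1) k1 k2 k3 hLv1 hk1L hk2L hk3L hPS hv).2 _ ?_ ?_
      · rw [← dotProduct_mulVec, h1, dotProduct_zero]
      · intro k' _
        have := bf_mulVec Q (im P) (iv z) k'
        rw [h1, bf_zero_left] at this
        exact this.symm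
    obtain ⟨M, M', T, hM, hPM⟩ := exists_sat P hinj
    have hTcol : ∀ k : Fin 4, (![v1, v2, v3, v] : Fin 4 → Fin n → ℤ) k = M *ᵥ (fun a => T a k) := by
      intro k
      funext a
      have : P a k = (M * T) a k := by rw [← hPM]
      rw [Matrix.mul_apply] at this
      exact this
    have hMN : ∀ y : Fin 4 → ℝ, (im M * (im T * S4)) *ᵥ y =
        y 0 • iv v1 + y 1 • k1 + y 2 • k2 + y 3 • k3 := by
      intro y
      rw [← Matrix.mul_assoc, ← im_mul, ← hPM, hPS]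
    obtain ⟨hNdet, hnd⟩ := nondeg_of_gram hQ L (im M) (im T * S4) (iv v1) k1 k2 k3 hLv1 hk1L hk2L
      hk3L hMN hv
    have hval : ∀ y, im M *ᵥ ((im T * S4) *ᵥ y) = y 0 • iv v1 + y 1 • k1 + y 2 • k2 + y 3 • k3 := by
      intro y; rw [mulVec_mulVec, hMN]
    have hc2 : ¬ Cond2 ((im M)ᵀ * Q * im M) (L ᵥ* im M) := by
      intro hc2
      apply hex
      refine ⟨M, fun v hv => prim_of_leftInv M M' hM hv, ?_, hnd, ?_, ?_, hc2⟩
      · intro h0
        have h5 := hval ![1, 0, 0, 0]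
        have h6 : (L ᵥ* im M) ⬝ᵥ ((im T * S4) *ᵥ ![1, 0, 0, 0]) = L ⬝ᵥ iv v1 := by
          rw [← dotProduct_mulVec, h5]; simp
        rw [h0, zero_dotProduct] at h6
        exact hLv1 h6.symm
      · refine ⟨(im T * S4) *ᵥ ![0, 1, 0, 0], ?_, ?_⟩
        · rw [← dotProduct_mulVec, hval]; simp [hk1L]
        · have h7 := bf_mulVec Q (im M) ((im T * S4) *ᵥ ![0, 1, 0, 0]) ((im T * S4) *ᵥ ![0, 1, 0, 0])
          rw [hval] at h7
          have h8 : (![0, 1, 0, 0] : Fin 4 → ℝ) 0 • iv v1 + (![0, 1, 0, 0] : Fin 4 → ℝ) 1 • k1 +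
            (![0, 1, 0, 0] : Fin 4 → ℝ) 2 • k2 + (![0, 1, 0, 0] : Fin 4 → ℝ) 3 • k3 = k1 := by
            simp
          rw [h8] at h7
          have h9 := hk1
          rw [h7] at h9
          exact h9
      · refine ⟨(im T * S4) *ᵥ ![0, 0, 1, 0], ?_, ?_⟩
        · rw [← dotProduct_mulVec, hval]; simp [hk2L]
        · have h7 := bf_mulVec Q (im M) ((im T * S4) *ᵥ ![0, 0, 1, 0]) ((im T * S4) *ᵥ ![0, 0, 1, 0])
          rw [hval] at h7
          have h8 : (![0, 0, 1, 0] : Fin 4 → ℝ) 0 • iv v1 + (![0, 0, 1, 0] : Fin 4 → ℝ) 1 • k1 +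
            (![0, 0, 1, 0] : Fin 4 → ℝ) 2 • k2 + (![0, 0, 1, 0] : Fin 4 → ℝ) 3 • k3 = k2 := by
            simp
          rw [h8] at h7
          have h9 := hk2
          rw [h7] at h9
          exact h9
    unfold Cond2 at hc2
    push Not at hc2
    obtain ⟨α, β, hαβ, c, B, hB⟩ := hc2
    refine ⟨α, β, c, hαβ, ?_⟩
    intro i j
    obtain ⟨q, hq⟩ := bf_rat B (fun a => T a i) (fun a => T a j)
    refine ⟨q, ?_⟩
    have e1 := congrArg (fun X => bf X (iv (fun a => T a i)) (iv (fun a => T a j))) hB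
    simp only [bf_add_mat, bf_smul_mat, bf_vecMulVec, hq] at e1
    rw [← bf_mulVec, im_mulVec, im_mulVec, ← hTcol i, ← hTcol j] at e1
    have e2 : ∀ k : Fin 4, (L ᵥ* im M) ⬝ᵥ iv (fun a => T a k) =
        L ⬝ᵥ iv ((![v1, v2, v3, v] : Fin 4 → Fin n → ℤ) k) := by
      intro k
      rw [← dotProduct_mulVec, im_mulVec, ← hTcol k]
    rw [dotProduct_comm (iv (fun a => T a i)), e2 i, e2 j] at e1
    rw [e1]; ring
  -- normalise `α = 1`
  have hred1 : ∀ v : Fin n → ℤ, bf C (iv v) (iv v) ≠ 0 → ∃ β c : ℝ,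
      ∀ i j : Fin 4, ∃ q : ℚ,
        bf Q (iv ((![v1, v2, v3, v] : Fin 4 → Fin n → ℤ) i))
          (iv ((![v1, v2, v3, v] : Fin 4 → Fin n → ℤ) j)) +
        β * ((L ⬝ᵥ iv ((![v1, v2, v3, v] : Fin 4 → Fin n → ℤ) i)) *
          (L ⬝ᵥ iv ((![v1, v2, v3, v] : Fin 4 → Fin n → ℤ) j))) = q * c := by
    intro v hv
    obtain ⟨α, β, c, hαβ, h⟩ := hred v hv
    have hα : α ≠ 0 := by
      rintro rfl
      have hβ : β ≠ 0 := by
        rintro rfl
        exact hαβ rfl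
      obtain ⟨q1, hq1⟩ := h 0 2
      obtain ⟨q2, hq2⟩ := h 2 2
      have hq1' : β * ((L ⬝ᵥ iv v1) * (L ⬝ᵥ iv v3)) = q1 * c := by
        rw [← hq1]; simp
      have hq2' : β * ((L ⬝ᵥ iv v3) * (L ⬝ᵥ iv v3)) = q2 * c := by
        rw [← hq2]; simp
      have hne : q2 * c ≠ 0 := by
        rw [← hq2']; exact mul_ne_zero hβ (mul_ne_zero hLv3 hLv3)
      have hq20 : (q2 : ℝ) ≠ 0 := left_ne_zero_of_mul hne
      have hc0 : c ≠ 0 := right_ne_zero_of_mul hne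
      apply hrat (q1 / q2)
      rw [Rat.cast_div]
      field_simp
      have : β * (L ⬝ᵥ iv v3) * c * ((L ⬝ᵥ iv v1) * q2) = β * (L ⬝ᵥ iv v3) * c * (q1 * (L ⬝ᵥ iv v3)) := by
        linear_combination (q2 * c) * hq1' - (q1 * c) * hq2'
      have h9 := mul_left_cancel₀ (mul_ne_zero (mul_ne_zero hβ hLv3) hc0) this
      linarith
    refine ⟨β / α, c / α, ?_⟩
    intro i j
    obtain ⟨q, hq⟩ := h i j
    refine ⟨q, ?_⟩
    field_simp
    linarith
  -- the pencil on `v1,v2,v3`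
  let G3 : Matrix (Fin 3) (Fin 3) ℝ := Matrix.of fun i j =>
    bf Q (iv ((![v1, v2, v3] : Fin 3 → Fin n → ℤ) i)) (iv ((![v1, v2, v3] : Fin 3 → Fin n → ℤ) j))
  let l3 : Fin 3 → ℝ := fun i => L ⬝ᵥ iv ((![v1, v2, v3] : Fin 3 → Fin n → ℤ) i)
  have hl30 : l3 0 = L ⬝ᵥ iv v1 := rfl
  have hl31 : l3 1 = L ⬝ᵥ iv v2 := rfl
  have hl32 : l3 2 = L ⬝ᵥ iv v3 := rfl
  have hl3 : l3 ≠ 0 := by
    intro h0
    exact hLv1 (congrFun h0 0)
  have hG3 : ∀ x y : Fin 3 → ℝ, bf G3 x y =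
      bf Q (x 0 • iv v1 + x 1 • iv v2 + x 2 • iv v3) (y 0 • iv v1 + y 1 • iv v2 + y 2 • iv v3) := by
    intro x y
    simp only [bf_add_left, bf_add_right, bf_smul_left, bf_smul_right]
    have : bf G3 x y = ∑ i, x i * ∑ j, G3 i j * y j := by
      simp [bf, dotProduct, mulVec]
    rw [this]
    have g00 : G3 0 0 = bf Q (iv v1) (iv v1) := rfl
    have g01 : G3 0 1 = bf Q (iv v1) (iv v2) := rfl
    have g02 : G3 0 2 = bf Q (iv v1) (iv v3) := rfl
    have g10 : G3 1 0 = bf Q (iv v2) (iv v1) := rfl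
    have g11 : G3 1 1 = bf Q (iv v2) (iv v2) := rfl
    have g12 : G3 1 2 = bf Q (iv v2) (iv v3) := rfl
    have g20 : G3 2 0 = bf Q (iv v3) (iv v1) := rfl
    have g21 : G3 2 1 = bf Q (iv v3) (iv v2) := rfl
    have g22 : G3 2 2 = bf Q (iv v3) (iv v3) := rfl
    simp only [Fin.sum_univ_three, g00, g01, g02, g10, g11, g12, g20, g21, g22]
    ring
  have hrk3 : ∀ a b : ℝ, a ≠ 0 → ¬ ∃ v v' : Fin 3 → ℝ,
      a • G3 + b • vecMulVec l3 l3 = vecMulVec v v' := by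
    rintro a b ha ⟨v, v', hvv⟩
    have e1 : (![-(L ⬝ᵥ iv v2), L ⬝ᵥ iv v1, 0] : Fin 3 → ℝ) 0 • iv v1 +
        (![-(L ⬝ᵥ iv v2), L ⬝ᵥ iv v1, 0] : Fin 3 → ℝ) 1 • iv v2 +
        (![-(L ⬝ᵥ iv v2), L ⬝ᵥ iv v1, 0] : Fin 3 → ℝ) 2 • iv v3 = k1 := by
      rw [hk1d]; simp only [kk]; funext i; simp; ring
    have e2 : (![-(L ⬝ᵥ iv v3), 0, L ⬝ᵥ iv v1] : Fin 3 → ℝ) 0 • iv v1 +
        (![-(L ⬝ᵥ iv v3), 0, L ⬝ᵥ iv v1] : Fin 3 → ℝ) 1 • iv v2 +
        (![-(L ⬝ᵥ iv v3), 0, L ⬝ᵥ iv v1] : Fin 3 → ℝ) 2 • iv v3 = k2 := by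
      rw [hk2d]; simp only [kk]; funext i; simp; ring
    have o1 : l3 ⬝ᵥ (![-(L ⬝ᵥ iv v2), L ⬝ᵥ iv v1, 0] : Fin 3 → ℝ) = 0 := by
      simp only [dotProduct, Fin.sum_univ_three, hl30, hl31, hl32]; simp; ring
    have o2 : l3 ⬝ᵥ (![-(L ⬝ᵥ iv v3), 0, L ⬝ᵥ iv v1] : Fin 3 → ℝ) = 0 := by
      simp only [dotProduct, Fin.sum_univ_three, hl30, hl31, hl32]; simp; ring
    set y1 : Fin 3 → ℝ := ![-(L ⬝ᵥ iv v2), L ⬝ᵥ iv v1, 0] with hy1d
    set y2 : Fin 3 → ℝ := ![-(L ⬝ᵥ iv v3), 0, L ⬝ᵥ iv v1] with hy2d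
    have E : ∀ x y : Fin 3 → ℝ, a * bf G3 x y + b * ((x ⬝ᵥ l3) * (l3 ⬝ᵥ y)) =
        (x ⬝ᵥ v) * (v' ⬝ᵥ y) := by
      intro x y
      rw [← bf_vecMulVec, ← bf_vecMulVec, ← bf_smul_mat, ← bf_smul_mat, ← bf_add_mat, hvv]
    have E11 := E y1 y1
    have E22 := E y2 y2
    have E12 := E y1 y2
    have E21 := E y2 y1
    rw [hG3, o1, e1, mul_zero, mul_zero, add_zero] at E11
    rw [hG3, o2, e2, mul_zero, mul_zero, add_zero] at E22
    rw [hG3, o2, e1, e2, mul_zero, mul_zero, add_zero] at E12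
    rw [hG3, o1, e1, e2, mul_zero, mul_zero, add_zero, bf_comm hQ k2 k1] at E21
    have h1 : (a * bf Q k1 k1) * (a * bf Q k2 k2) = (a * bf Q k1 k2) * (a * bf Q k1 k2) := by
      calc (a * bf Q k1 k1) * (a * bf Q k2 k2) =
          ((y1 ⬝ᵥ v) * (v' ⬝ᵥ y2)) * ((y2 ⬝ᵥ v) * (v' ⬝ᵥ y1)) := by rw [E11, E22]; ring
        _ = _ := by rw [← E12, ← E21]
    have h5 : a * a * (bf Q k1 k1 * bf Q k2 k2 - bf Q k1 k2 ^ 2) = 0 := by
      linear_combination h1
    have h6 : 0 < a * a := mul_self_pos.2 ha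
    nlinarith
  have hirr3 : ∀ w : Fin 3 → ℤ, w ≠ 0 → ¬ ∃ c : ℝ, iv w = c • l3 := by
    rintro w hw ⟨c, hc⟩
    have hc0 : c ≠ 0 := by
      rintro rfl
      apply hw
      funext i
      have := congrFun hc i
      simpa [iv] using this
    have w0 : (w 0 : ℝ) = c * (L ⬝ᵥ iv v1) := congrFun hc 0
    have w2 : (w 2 : ℝ) = c * (L ⬝ᵥ iv v3) := congrFun hc 2
    have hw2 : (w 2 : ℝ) ≠ 0 := by rw [w2]; exact mul_ne_zero hc0 hLv3
    apply hrat ((w 0 : ℚ) / (w 2 : ℚ))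
    rw [Rat.cast_div, Rat.cast_intCast, Rat.cast_intCast, w0, w2]
    field_simp
  -- restriction to the first three vectors
  have hres : ∀ (v : Fin n → ℤ) (β c : ℝ), (∀ i j : Fin 4, ∃ q : ℚ,
        bf Q (iv ((![v1, v2, v3, v] : Fin 4 → Fin n → ℤ) i))
          (iv ((![v1, v2, v3, v] : Fin 4 → Fin n → ℤ) j)) +
        β * ((L ⬝ᵥ iv ((![v1, v2, v3, v] : Fin 4 → Fin n → ℤ) i)) *
          (L ⬝ᵥ iv ((![v1, v2, v3, v] : Fin 4 → Fin n → ℤ) j))) = q * c) →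
      ∀ i j : Fin 3, ∃ q : ℚ, G3 i j + β * (l3 i * l3 j) = q * c := by
    intro v β c h i j
    have hcast : ∀ k : Fin 3, (![v1, v2, v3] : Fin 3 → Fin n → ℤ) k =
        (![v1, v2, v3, v] : Fin 4 → Fin n → ℤ) (Fin.castSucc k) := by
      intro k; fin_cases k <;> rfl
    obtain ⟨q, hq⟩ := h i.castSucc j.castSucc
    refine ⟨q, ?_⟩
    rw [← hq, ← hcast i, ← hcast j]
    rfl
  obtain ⟨v0, hv0⟩ := exists_int_quadric C hCs hC0
  obtain ⟨β0, c0, h0⟩ := hred1 v0 hv0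
  -- a nonzero entry
  obtain ⟨i0, j0, hij0⟩ : ∃ i j : Fin 3, G3 i j + β0 * (l3 i * l3 j) ≠ 0 := by
    by_contra hcon
    push Not at hcon
    apply hrk3 1 β0 one_ne_zero
    refine ⟨0, 0, ?_⟩
    ext i j
    have := hcon i j
    simpa [vecMulVec_apply] using this
  have hA0 : (Q + β0 • vecMulVec L L)ᵀ = Q + β0 • vecMulVec L L := by
    rw [transpose_add, hQ, transpose_smul, transpose_vecMulVec]
  have hfin : ∀ v : Fin n → ℤ, bf C (iv v) (iv v) ≠ 0 →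
      ∃ q : ℚ, bf (Q + β0 • vecMulVec L L) (iv v) (iv v) = q * (G3 i0 j0 + β0 * (l3 i0 * l3 j0)) := by
    intro v hv
    obtain ⟨β, c, h⟩ := hred1 v hv
    have hβ : β = β0 := uniq_beta hpen G3 l3 hl3 hrk3 hirr3 β β0 c c0 (hres v β c h) (hres v0 β0 c0 h0)
    subst hβ
    obtain ⟨q1, hq1⟩ := hres v β c h i0 j0
    obtain ⟨q2, hq2⟩ := h 3 3
    have hq2' : bf Q (iv v) (iv v) + β * ((L ⬝ᵥ iv v) * (L ⬝ᵥ iv v)) = q2 * c := by
      rw [← hq2]; rfl
    have hne : (q1 : ℝ) * c ≠ 0 := by rw [← hq1]; exact hij0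
    have hq10 : (q1 : ℝ) ≠ 0 := left_ne_zero_of_mul hne
    refine ⟨q2 / q1, ?_⟩
    rw [hq1, bf_add_mat, bf_smul_mat, bf_vecMulVec, dotProduct_comm (iv v) L, hq2', Rat.cast_div]
    field_simp
  have hall := rational_of_quadric (Q + β0 • vecMulVec L L) C hA0 hCs hC0 _ hfin
  choose B hB using hall
  refine h2 1 β0 (by simp) ⟨G3 i0 j0 + β0 * (l3 i0 * l3 j0), Matrix.of B, ?_⟩
  rw [one_smul]
  ext i j
  rw [hB i j]
  simp [mul_comm]

end H24
end QL
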