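import Pool.Agent.Helper27_QL.StmtApp3

set_option autoImplicit false
set_option linter.unusedVariables false
set_option linter.unusedSimpArgs false
open Matrix Filter Topology

namespace QL
namespace H24

theorem goodB_sq {d : ℕ} {B : Matrix (Fin d) (Fin d) ℝ} (hB : GoodB d B) : B * B = 1 := by
  rcases hB with rfl | ⟨rfl, h⟩
  · rw [one_mul]
  · ext i j
    rw [Matrix.mul_apply, Fin.sum_univ_two]
    simp only [h]
    fin_cases i <;> fin_cases j <;> simp

theorem act_act' {ι : Type} [Fintype ι] (q : W ι) (g h : Matrix ι ι ℝ) :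
    act (act q g) h = act q (g * h) := by
  unfold act
  simp only [transpose_mul, Matrix.mul_assoc, vecMul_vecMul]

theorem uB_eq {d : ℕ} (B : Matrix (Fin d) (Fin d) ℝ) (w : Fin d → ℝ) :
    uB B w = Matrix.fromBlocks 1 (Matrix.of fun i j => if j = 0 then w i else 0)
      (Matrix.of fun i j => if i = 0 then 0 else -2 * (B *ᵥ w) j)
      !![1, 0; -(w ⬝ᵥ B *ᵥ w), 1] := rfl

theorem uB_oB {d : ℕ} (B o : Matrix (Fin d) (Fin d) ℝ) (w : Fin d → ℝ) :
    uB B w * oB o = Matrix.fromBlocks o (Matrix.of fun i j => if j = 0 then w i else 0)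
      ((Matrix.of fun i j => if i = 0 then 0 else -2 * (B *ᵥ w) j) * o)
      !![1, 0; -(w ⬝ᵥ B *ᵥ w), 1] := by
  rw [uB_eq]
  unfold oB
  refine (Matrix.fromBlocks_multiply _ _ _ _ _ _ _ _).trans ?_
  simp only [Matrix.mul_zero, Matrix.one_mul, add_zero, zero_add, Matrix.mul_one]

theorem stabB : stabBStatement := by
  intro d hd B hB h hh
  have hBB := goodB_sq hB
  have h1 : hᵀ * QB B * h = QB B := congrArg Prod.fst hh
  have h2 : LB d ᵥ* h = LB d := congrArg Prod.snd hh
  -- row `s`
  have hrow : ∀ k, h (Sum.inr 0) k = LB d k := by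
    intro k
    have := congrFun h2 k
    rw [← this]
    simp [vecMul, dotProduct, LB, Fintype.sum_sum_type, Fin.sum_univ_two]
  obtain ⟨a, ha⟩ : ∃ a : Matrix (Fin d) (Fin d) ℝ, a = h.toBlocks₁₁ := ⟨_, rfl⟩
  obtain ⟨b, hb⟩ : ∃ b : Matrix (Fin d) (Fin 2) ℝ, b = h.toBlocks₁₂ := ⟨_, rfl⟩
  obtain ⟨c, hc⟩ : ∃ c : Matrix (Fin 2) (Fin d) ℝ, c = h.toBlocks₂₁ := ⟨_, rfl⟩
  obtain ⟨e, he⟩ : ∃ e : Matrix (Fin 2) (Fin 2) ℝ, e = h.toBlocks₂₂ := ⟨_, rfl⟩
  have hblk : h = Matrix.fromBlocks a b c e := by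
    rw [ha, hb, hc, he, Matrix.fromBlocks_toBlocks]
  have hc0 : ∀ j, c 0 j = 0 := by
    intro j; rw [hc]; exact hrow (Sum.inl j)
  have he00 : e 0 0 = 1 := by rw [he]; exact hrow (Sum.inr 0)
  have he01 : e 0 1 = 0 := by rw [he]; exact hrow (Sum.inr 1)
  rw [hblk] at h1
  unfold QB at h1
  rw [Matrix.fromBlocks_transpose, Matrix.fromBlocks_multiply, Matrix.fromBlocks_multiply,
    Matrix.fromBlocks_inj] at h1
  simp only [Matrix.mul_zero, Matrix.zero_mul, add_zero, zero_add] at h1
  obtain ⟨k11, k12, k21, k22⟩ := h1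
  have hcJ : ∀ (M : Matrix (Fin 2) (Fin d) ℝ), (∀ j, M 0 j = 0) →
      cᵀ * (!![0, 1/2; 1/2, 0] : Matrix (Fin 2) (Fin 2) ℝ) * M = 0 := by
    intro M hM
    ext i j
    simp [Matrix.mul_apply, Fin.sum_univ_two, hM, hc0]
  rw [hcJ c hc0, add_zero] at k11
  have haB : (B * aᵀ * B) * a = 1 := by
    rw [Matrix.mul_assoc, Matrix.mul_assoc, ← Matrix.mul_assoc aᵀ, k11, hBB]
  have haB' : a * (B * aᵀ * B) = 1 := mul_eq_one_comm.1 haB
  -- column 1 of b is zero
  have hb1 : ∀ i, b i 1 = 0 := by
    have hcol : ∀ i, (aᵀ * B * b) i 1 = 0 := by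
      intro i
      have := congrFun (congrFun k12 i) 1
      simp only [Matrix.add_apply, Matrix.zero_apply] at this
      have h0 : (cᵀ * (!![0, 1/2; 1/2, 0] : Matrix (Fin 2) (Fin 2) ℝ) * e) i 1 = 0 := by
        simp [Matrix.mul_apply, Fin.sum_univ_two, hc0, he01]
      rw [h0, add_zero] at this
      exact this
    have hbb : b = a * (B * (aᵀ * B * b)) := by
      rw [Matrix.mul_assoc aᵀ B b, ← Matrix.mul_assoc B aᵀ, ← Matrix.mul_assoc (B * aᵀ) B b,
        ← Matrix.mul_assoc a, haB', Matrix.one_mul]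
    intro i
    rw [hbb, ← Matrix.mul_assoc, Matrix.mul_apply]
    apply Finset.sum_eq_zero
    intro j _
    rw [hcol j, mul_zero]
  have he11 : e 1 1 = 1 := by
    have := congrFun (congrFun k22 0) 1
    simp only [Matrix.add_apply] at this
    have h0 : (bᵀ * B * b) 0 1 = 0 := by
      rw [Matrix.mul_apply]
      apply Finset.sum_eq_zero
      intro j _
      rw [hb1 j, mul_zero]
    rw [h0, zero_add] at this
    simp [Matrix.mul_apply, Fin.sum_univ_two, he00, he01] at this
    linarith
  have he10 : e 1 0 = -((fun i => b i 0) ⬝ᵥ B *ᵥ (fun i => b i 0)) := by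
    have := congrFun (congrFun k22 0) 0
    simp only [Matrix.add_apply] at this
    have h0 : (bᵀ * B * b) 0 0 = (fun i => b i 0) ⬝ᵥ B *ᵥ (fun i => b i 0) := by
      rw [Matrix.mul_assoc, Matrix.mul_apply]
      simp only [Matrix.mul_apply, dotProduct, mulVec, transpose_apply]
    rw [h0] at this
    simp [Matrix.mul_apply, Fin.sum_univ_two, he00, he01] at this
    linarith
  have hc1 : ∀ j, c 1 j = -2 * (aᵀ *ᵥ (B *ᵥ (fun i => b i 0))) j := by
    intro j
    have := congrFun (congrFun k12 j) 0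
    simp only [Matrix.add_apply, Matrix.zero_apply] at this
    have h0 : (aᵀ * B * b) j 0 = (aᵀ *ᵥ (B *ᵥ (fun i => b i 0))) j := by
      rw [mulVec_mulVec]
      rfl
    rw [h0] at this
    generalize (aᵀ *ᵥ (B *ᵥ (fun i => b i 0))) j = t at this ⊢
    simp [Matrix.mul_apply, Fin.sum_univ_two, he00, he01, hc0] at this
    linarith
  refine ⟨a, fun i => b i 0, k11, ?_⟩
  rw [hblk, uB_oB]
  refine Matrix.fromBlocks_inj.2 ⟨rfl, ?_, ?_, ?_⟩
  · ext i j
    rw [Matrix.of_apply]
    fin_cases j
    · simp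
    · simp [hb1]
  · ext i j
    rw [Matrix.mul_apply]
    fin_cases i
    · simp [hc0]
    · simp only [Fin.mk_one, Fin.isValue, Matrix.of_apply, one_ne_zero, if_false]
      rw [hc1]
      simp only [mulVec, dotProduct, transpose_apply]
      rw [Finset.mul_sum]
      exact Finset.sum_congr rfl fun k _ => by ring
  · ext i j
    fin_cases i <;> fin_cases j
    · simp [he00]
    · simp [he01]
    · simp [he10]
    · simp [he11]

theorem structB (hfix : fixedBStatement) (halg : algBStatement) : structBStatement := by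
  intro d hd B hB g hg hdet hf
  have hBB := goodB_sq hB
  obtain ⟨hf1, hf2, hf3, hf4⟩ := hfix d hd B hB
  have hBs : Bᵀ = B := by
    rcases hB with rfl | ⟨rfl, h⟩
    · simp
    · ext i j
      rw [transpose_apply, h, h]
      by_cases hij : i = j
      · subst hij; rfl
      · rw [if_neg hij, if_neg (Ne.symm hij)]
  obtain ⟨-, -, -, -, hal1, -, hal2, hal3, -⟩ := halg d B hBs
  have hex : ∀ i, ∃ a b c : ℝ, act (pB B) (g i) = (a • QB B + b • LL d, c • LB d) := by
    intro i
    apply hf1 _ _ (hf i)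
    unfold act pB
    simp only
    rw [transpose_mul, transpose_mul, transpose_transpose, hf4, Matrix.mul_assoc]
  choose a b c habc using hex
  -- limits
  have hact : Tendsto (fun i => act (pB B) (g i)) atTop (𝓝 (pB B)) := by
    have hcont : Continuous fun x : M3 d => act (pB B) x := by
      unfold act
      fun_prop
    have h0 : act (pB B) (1 : M3 d) = pB B := by
      unfold act
      simp
    have := (hcont.tendsto 1).comp hg
    rw [h0] at this
    exact this
  have hm1 : ∀ j k, Tendsto (fun i => (act (pB B) (g i)).1 j k) atTop (𝓝 ((pB B).1 j k)) := by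
    intro j k
    have hcont : Continuous fun y : W (I3 d) => y.1 j k := by fun_prop
    exact (hcont.tendsto _).comp hact
  have hm2 : ∀ j, Tendsto (fun i => (act (pB B) (g i)).2 j) atTop (𝓝 ((pB B).2 j)) := by
    intro j
    have hcont : Continuous fun y : W (I3 d) => y.2 j := by fun_prop
    exact (hcont.tendsto _).comp hact
  have ha : Tendsto a atTop (𝓝 1) := by
    have h1 := hm1 (Sum.inr 0) (Sum.inr 1)
    have h2 : ∀ i, (act (pB B) (g i)).1 (Sum.inr 0) (Sum.inr 1) = a i * (1 / 2) := by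
      intro i
      rw [habc]
      simp [QB, LL, LB, vecMulVec_apply]
    simp only [h2] at h1
    have h3 : (pB B).1 (Sum.inr 0) (Sum.inr 1) = 1 / 2 := by
      simp [pB, QB]
    rw [h3] at h1
    have h4 := h1.mul_const 2
    have h5 : (fun i => a i * (1 / 2) * 2) = a := by funext i; ring
    rw [h5] at h4
    norm_num at h4
    exact h4
  have hb : Tendsto b atTop (𝓝 0) := by
    have h1 := hm1 (Sum.inr 0) (Sum.inr 0)
    have h2 : ∀ i, (act (pB B) (g i)).1 (Sum.inr 0) (Sum.inr 0) = b i := by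
      intro i
      rw [habc]
      simp [QB, LL, LB, vecMulVec_apply]
    simp only [h2] at h1
    have h3 : (pB B).1 (Sum.inr 0) (Sum.inr 0) = 0 := by
      simp [pB, QB]
    rw [h3] at h1
    exact h1
  have hc : Tendsto c atTop (𝓝 1) := by
    have h1 := hm2 (Sum.inr 0)
    have h2 : ∀ i, (act (pB B) (g i)).2 (Sum.inr 0) = c i := by
      intro i
      rw [habc]
      simp [LB]
    simp only [h2] at h1
    have h3 : (pB B).2 (Sum.inr 0) = 1 := by
      simp [pB, LB]
    rw [h3] at h1
    exact h1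
  have hdeta : ∀ i, a i ^ (d + 2) = 1 := by
    intro i
    have h1 : ((act (pB B) (g i)).1).det = (QB B).det := by
      unfold act pB
      simp only
      rw [det_mul, det_mul, det_transpose, hdet, one_mul, mul_one]
    rw [habc] at h1
    simp only at h1
    rw [hf2] at h1
    exact mul_right_cancel₀ hf3 (by rw [h1, one_mul])
  have hev : ∀ᶠ i in atTop, 0 < a i ∧ 0 < c i :=
    (ha.eventually (lt_mem_nhds one_pos)).and (hc.eventually (lt_mem_nhds one_pos))
  obtain ⟨i0, hi0⟩ := eventually_atTop.1 hev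
  set X : ℕ → M3 d := fun i => aB d (c i) * vB d (b i) with hX
  set H : ℕ → M3 d := fun i => g i * (vB d (-(b i)) * aB d (c i)⁻¹) with hH
  have hvv : ∀ b, vB d b * vB d (-b) = 1 := by
    intro b
    unfold vB
    rw [Matrix.fromBlocks_multiply]
    simp only [Matrix.mul_zero, Matrix.zero_mul, add_zero, zero_add, Matrix.one_mul]
    have : (!![1, 0; b, 1] : Matrix (Fin 2) (Fin 2) ℝ) * !![1, 0; -b, 1] = 1 := by
      ext i j; fin_cases i <;> fin_cases j <;> simp [Matrix.mul_apply, Fin.sum_univ_two]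
    rw [this, Matrix.fromBlocks_one]
  have haa : ∀ c : ℝ, c ≠ 0 → aB d c * aB d c⁻¹ = 1 := by
    intro c hc
    unfold aB
    rw [Matrix.fromBlocks_multiply]
    simp only [Matrix.mul_zero, Matrix.zero_mul, add_zero, zero_add, Matrix.one_mul]
    have : (!![c, 0; 0, c⁻¹] : Matrix (Fin 2) (Fin 2) ℝ) * !![c⁻¹, 0; 0, c⁻¹⁻¹] = 1 := by
      ext i j; fin_cases i <;> fin_cases j <;> simp [Matrix.mul_apply, Fin.sum_univ_two, hc]
    rw [this, Matrix.fromBlocks_one]
  have hXX : ∀ i ≥ i0, X i * (vB d (-(b i)) * aB d (c i)⁻¹) = 1 := by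
    intro i hi
    have hci := (hi0 i hi).2.ne'
    simp only [hX]
    rw [Matrix.mul_assoc, ← Matrix.mul_assoc (vB d (b i)), hvv, one_mul, haa _ hci]
  have hXX' : ∀ i ≥ i0, (vB d (-(b i)) * aB d (c i)⁻¹) * X i = 1 :=
    fun i hi => mul_eq_one_comm.1 (hXX i hi)
  have hgH : ∀ i ≥ i0, g i = H i * X i := by
    intro i hi
    simp only [hH]
    rw [Matrix.mul_assoc, hXX' i hi, mul_one]
  have hHlim : Tendsto H atTop (𝓝 1) := by
    have hcv : Continuous fun b : ℝ => vB d (-b) := by
      unfold vB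
      apply Continuous.matrix_fromBlocks continuous_const continuous_const continuous_const
      refine continuous_matrix ?_
      intro i j
      fin_cases i <;> fin_cases j <;> simp <;> fun_prop
    have h1 : Tendsto (fun i => vB d (-(b i))) atTop (𝓝 1) := by
      have := (hcv.tendsto 0).comp hb
      have h0 : vB d (-(0 : ℝ)) = 1 := by
        unfold vB
        rw [neg_zero]
        have : (!![1, 0; 0, 1] : Matrix (Fin 2) (Fin 2) ℝ) = 1 := by
          ext i j; fin_cases i <;> fin_cases j <;> simp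
        rw [this, Matrix.fromBlocks_one]
      rw [h0] at this
      exact this
    have h2 : Tendsto (fun i => aB d (c i)⁻¹) atTop (𝓝 1) := by
      have hci : Tendsto (fun i => (c i)⁻¹) atTop (𝓝 1) := by
        have := hc.inv₀ one_ne_zero
        rwa [inv_one] at this
      have hp : Tendsto (fun i => ((c i)⁻¹, c i)) atTop (𝓝 (1, 1)) := hci.prodMk_nhds hc
      have hca : Continuous fun y : ℝ × ℝ =>
          (Matrix.fromBlocks 1 0 0 !![y.1, 0; 0, y.2] : M3 d) := by
        apply Continuous.matrix_fromBlocks continuous_const continuous_const continuous_const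
        refine continuous_matrix ?_
        intro i j
        fin_cases i <;> fin_cases j <;> simp <;> fun_prop
      have := (hca.tendsto (1, 1)).comp hp
      have h0 : (Matrix.fromBlocks 1 0 0 !![(1 : ℝ), 0; 0, 1] : M3 d) = 1 := by
        have : (!![1, 0; 0, 1] : Matrix (Fin 2) (Fin 2) ℝ) = 1 := by
          ext i j; fin_cases i <;> fin_cases j <;> simp
        rw [this, Matrix.fromBlocks_one]
      simp only at this
      rw [h0] at this
      refine this.congr ?_
      intro i
      simp only [Function.comp, aB, inv_inv]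
    have h3 := hg.mul (h1.mul h2)
    rw [mul_one, mul_one] at h3
    exact h3
  have hst : ∀ i ≥ i0, ∃ (o : Matrix (Fin d) (Fin d) ℝ) (w : Fin d → ℝ), oᵀ * B * o = B ∧
      H i = uB B w * oB o := by
    intro i hi
    apply stabB d hd B hB
    have hci := (hi0 i hi).2.ne'
    have hai : a i = 1 := (pow_eq_one_iff_of_nonneg (hi0 i hi).1.le (by omega)).1 (hdeta i)
    have h1 : act (pB B) (g i) = act (pB B) (X i) := by
      rw [habc i, hal1 _ _ hci, hai, one_smul]
      rfl
    have h2 : act (act (pB B) (g i)) (vB d (-(b i)) * aB d (c i)⁻¹) = pB B := by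
      rw [h1, act_act', hXX i hi]
      unfold act
      simp
    rw [act_act'] at h2
    exact h2
  have hblk : ∀ (o : Matrix (Fin d) (Fin d) ℝ) (w : Fin d → ℝ),
      (uB B w * oB o).toBlocks₁₁ = o ∧ ∀ k, (uB B w * oB o) (Sum.inl k) (Sum.inr 0) = w k := by
    intro o w
    rw [uB_oB]
    constructor
    · simp
    · intro k
      simp
  refine ⟨i0, fun i => (H i).toBlocks₁₁, fun i k => H i (Sum.inl k) (Sum.inr 0), b, c, ?_, ?_, hb,
    hc, ?_⟩
  · refine tendsto_pi_nhds.2 fun j => tendsto_pi_nhds.2 fun k => ?_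
    have hcont : Continuous fun y : M3 d => y (Sum.inl j) (Sum.inl k) := by fun_prop
    have := (hcont.tendsto 1).comp hHlim
    have h0 : (1 : M3 d) (Sum.inl j) (Sum.inl k) = (1 : Matrix (Fin d) (Fin d) ℝ) j k := by
      simp [Matrix.one_apply]
    rw [h0] at this
    exact this
  · rw [tendsto_pi_nhds]
    intro k
    have hcont : Continuous fun y : M3 d => y (Sum.inl k) (Sum.inr 0) := by fun_prop
    have := (hcont.tendsto 1).comp hHlim
    have h0 : (1 : M3 d) (Sum.inl k) (Sum.inr 0) = 0 := by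
      simp [Matrix.one_apply]
    rw [h0] at this
    exact this
  · intro i hi
    obtain ⟨o, w, ho, hHo⟩ := hst i hi
    obtain ⟨e1, e2⟩ := hblk o w
    have f1 : (H i).toBlocks₁₁ = o := by rw [hHo, e1]
    have f2 : (fun k => H i (Sum.inl k) (Sum.inr 0)) = w := by
      funext k; rw [hHo, e2]
    refine ⟨(hi0 i hi).2, ?_, ?_⟩
    · simp only [f1]; exact ho
    · simp only [f1, f2]
      rw [← hHo, hgH i hi, hX, ← Matrix.mul_assoc]

end H24
end QL
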